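import Mathlib

/-! A Mrowka-type compact space used to refute the BPB property for numerical radius. -/

set_option autoImplicit false

namespace Pool.Agent.H298Z.BPB

open Filter Topology Set

/-- Points: isolated points `(m, s, i)`, branch points `(m, b)` and the point at infinity. -/
inductive Pt : Type
  | iso : ℕ → List ℕ → ℕ → Pt
  | br : ℕ → (ℕ → ℕ) → Pt
  | inf : Pt

open Pt

/-- the `k`-th node on the branch `b` -/
def node (b : ℕ → ℕ) (k : ℕ) : List ℕ := (List.range (k + 1)).map b

lemma node_eq {b b' : ℕ → ℕ} {k k' : ℕ} (h : node b k = node b' k') :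
    k = k' ∧ ∀ i ≤ k, b i = b' i := by
  have h1 : k = k' := by
    have := congrArg List.length h
    simpa [node] using this
  subst h1
  refine ⟨rfl, fun i hi => ?_⟩
  unfold node at h
  exact (List.map_inj_left.1 h) i (by simp; omega)

lemma node_inj (b : ℕ → ℕ) : Function.Injective (node b) := fun _ _ h => (node_eq h).1

lemma node_inter_finite {b b' : ℕ → ℕ} (h : b ≠ b') :
    (range (node b) ∩ range (node b')).Finite := by
  obtain ⟨i, hi⟩ := Function.ne_iff.1 h
  refine ((Set.finite_lt_nat i).image (node b)).subset ?_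
  rintro s ⟨⟨k, rfl⟩, ⟨k', hk⟩⟩
  refine ⟨k, ?_, rfl⟩
  have := node_eq hk
  by_contra hlt
  simp only [mem_ofPred_eq, not_lt] at hlt
  exact hi (this.2 i (by omega)).symm

/-- the selected positive index at the node `s` for the branch `b` -/
def sel (m : ℕ) (b : ℕ → ℕ) (s : List ℕ) : ℕ := b (Encodable.encode s) % m

/-- the compact open neighbourhood of a branch point -/
def A (m : ℕ) (b : ℕ → ℕ) : Set Pt :=
  {p | p = br m b ∨ ∃ s ∈ range (node b), p = iso m s 1 ∨ p = iso m s (2 + sel m b s)}

/-- the basic clopen sets -/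
def U : Pt → Set Pt
  | iso m s i => {iso m s i}
  | br m b => A m b
  | inf => univ

lemma iso_mem_A {m m' : ℕ} {b : ℕ → ℕ} {s : List ℕ} {i : ℕ} :
    iso m s i ∈ A m' b ↔ m = m' ∧ s ∈ range (node b) ∧ (i = 1 ∨ i = 2 + sel m b s) := by
  constructor
  · rintro (h | ⟨s', hs', h | h⟩)
    · cases h
    · cases h; exact ⟨rfl, hs', Or.inl rfl⟩
    · cases h; exact ⟨rfl, hs', Or.inr rfl⟩
  · rintro ⟨rfl, hs, h | h⟩
    · exact Or.inr ⟨s, hs, Or.inl (by rw [h])⟩
    · exact Or.inr ⟨s, hs, Or.inr (by rw [h])⟩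

lemma br_mem_A {m m' : ℕ} {b b' : ℕ → ℕ} : br m b ∈ A m' b' ↔ m = m' ∧ b = b' := by
  constructor
  · rintro (h | ⟨s', hs', h | h⟩)
    · cases h; exact ⟨rfl, rfl⟩
    · cases h
    · cases h
  · rintro ⟨rfl, rfl⟩
    exact Or.inl rfl

lemma inf_not_mem_A {m : ℕ} {b : ℕ → ℕ} : inf ∉ A m b := by
  rintro (h | ⟨s', hs', h | h⟩) <;> cases h

lemma A_inter_finite {m m' : ℕ} {b b' : ℕ → ℕ} (h : ¬ (m = m' ∧ b = b')) :
    (A m b ∩ A m' b').Finite := by
  by_cases hm : m = m'
  · subst hm
    have hb : b ≠ b' := fun hb => h ⟨rfl, hb⟩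
    have hf := node_inter_finite hb
    refine ((hf.image (fun s => iso m s 1)).union
      (hf.image (fun s => iso m s (2 + sel m b s)))).subset ?_
    rintro p ⟨h1, h2⟩
    cases p with
    | iso m1 s i =>
      rw [iso_mem_A] at h1 h2
      obtain ⟨rfl, hs, hi⟩ := h1
      rcases hi with rfl | rfl
      · exact Or.inl ⟨s, ⟨hs, h2.2.1⟩, rfl⟩
      · exact Or.inr ⟨s, ⟨hs, h2.2.1⟩, rfl⟩
    | br m1 b1 =>
      rw [br_mem_A] at h1 h2
      exact absurd (h1.2.symm.trans h2.2) hb
    | inf => exact absurd h1 inf_not_mem_A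
  · convert Set.finite_empty
    ext p
    simp only [mem_inter_iff, mem_empty_iff_false, iff_false, not_and]
    intro h1 h2
    cases p with
    | iso m1 s i =>
      rw [iso_mem_A] at h1 h2
      exact hm (h1.1.symm.trans h2.1)
    | br m1 b1 =>
      rw [br_mem_A] at h1 h2
      exact hm (h1.1.symm.trans h2.1)
    | inf => exact inf_not_mem_A h1

open Classical in
/-- the embedding in a product of lines -/
noncomputable def emb (p : Pt) (a : Pt) : ℝ := if p ∈ U a then 1 else 0

noncomputable instance : TopologicalSpace Pt := TopologicalSpace.induced emb inferInstance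

lemma continuous_emb : Continuous emb := continuous_induced_dom

lemma self_mem_U (p : Pt) : p ∈ U p := by
  cases p with
  | iso m s i => rfl
  | br m b => exact Or.inl rfl
  | inf => trivial

lemma emb_inj : Function.Injective emb := by
  intro p q h
  have h1 : ∀ a, p ∈ U a ↔ q ∈ U a := by
    intro a
    have := congrFun h a
    unfold emb at this
    by_cases hp : p ∈ U a <;> by_cases hq : q ∈ U a <;> simp_all
  have hq : q ∈ U p := (h1 p).1 (self_mem_U p)
  have hp : p ∈ U q := (h1 q).2 (self_mem_U q)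
  cases p with
  | iso m s i => exact (mem_singleton_iff.1 hq).symm
  | br m b =>
    cases q with
    | iso m' s i => exact mem_singleton_iff.1 hp
    | br m' b' =>
      have := br_mem_A.1 hq
      rw [this.1, this.2]
    | inf => exact absurd hq inf_not_mem_A
  | inf =>
    cases q with
    | iso m' s i => exact mem_singleton_iff.1 hp
    | br m' b' => exact absurd hp inf_not_mem_A
    | inf => rfl

instance : T2Space Pt := T2Space.of_injective_continuous emb_inj continuous_emb

lemma le_nhds_of {F : Filter Pt} {p : Pt} (h : ∀ a, ∀ᶠ q in F, (q ∈ U a ↔ p ∈ U a)) :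
    F ≤ 𝓝 p := by
  rw [nhds_induced, ← map_le_iff_le_comap]
  change Tendsto emb F (𝓝 (emb p))
  rw [tendsto_pi_nhds]
  intro a
  refine tendsto_const_nhds.congr' ?_
  filter_upwards [h a] with q hq
  unfold emb
  by_cases hp : p ∈ U a
  · rw [if_pos hp, if_pos (hq.2 hp)]
  · rw [if_neg hp, if_neg (fun h => hp (hq.1 h))]

lemma le_nhds_br {F : Filter Pt} {m : ℕ} {b : ℕ → ℕ} (h1 : F ≤ cofinite) (h2 : A m b ∈ F) :
    F ≤ 𝓝 (br m b) := by
  apply le_nhds_of
  intro a
  cases a with
  | iso m' s i =>
    filter_upwards [h1 (Set.finite_singleton (iso m' s i)).compl_mem_cofinite] with q hq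
    simp only [U, mem_singleton_iff]
    exact ⟨fun h => absurd h hq, fun h => by cases h⟩
  | br m' b' =>
    by_cases h : m = m' ∧ b = b'
    · obtain ⟨rfl, rfl⟩ := h
      filter_upwards [h2] with q hq
      exact ⟨fun _ => Or.inl rfl, fun _ => hq⟩
    · filter_upwards [h2, h1 (A_inter_finite h).compl_mem_cofinite] with q hq hq'
      exact ⟨fun h' => absurd ⟨hq, h'⟩ hq', fun h' => absurd (br_mem_A.1 h') h⟩
  | inf => exact Eventually.of_forall fun q => by simp [U]

lemma le_nhds_inf {F : Filter Pt} (h1 : F ≤ cofinite) (h2 : ∀ m b, (A m b)ᶜ ∈ F) :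
    F ≤ 𝓝 inf := by
  apply le_nhds_of
  intro a
  cases a with
  | iso m' s i =>
    filter_upwards [h1 (Set.finite_singleton (iso m' s i)).compl_mem_cofinite] with q hq
    simp only [U, mem_singleton_iff]
    exact ⟨fun h => absurd h hq, fun h => by cases h⟩
  | br m' b' =>
    filter_upwards [h2 m' b'] with q hq
    exact ⟨fun h' => absurd h' hq, fun h' => absurd h' inf_not_mem_A⟩
  | inf => exact Eventually.of_forall fun q => by simp [U]

instance : CompactSpace Pt := by
  refine ⟨isCompact_iff_ultrafilter_le_nhds.2 fun u _ => ?_⟩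
  rcases u.le_cofinite_or_eq_pure with h | ⟨p, rfl⟩
  · by_cases hA : ∃ m b, A m b ∈ u
    · obtain ⟨m, b, hA⟩ := hA
      exact ⟨br m b, trivial, le_nhds_br h hA⟩
    · push Not at hA
      exact ⟨inf, trivial, le_nhds_inf h fun m b => Ultrafilter.compl_mem_iff_notMem.2 (hA m b)⟩
  · exact ⟨p, trivial, pure_le_nhds p⟩

/-- indicator functions of the basic clopen sets -/
noncomputable def ind (a : Pt) : C(Pt, ℝ) :=
  ⟨fun p => emb p a, (continuous_apply a).comp continuous_emb⟩

lemma ind_of_mem {a p : Pt} (h : p ∈ U a) : ind a p = 1 := by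
  simp [ind, emb, h]

lemma ind_of_not_mem {a p : Pt} (h : p ∉ U a) : ind a p = 0 := by
  simp [ind, emb, h]

lemma nhds_iso (m : ℕ) (s : List ℕ) (i : ℕ) : 𝓝 (iso m s i) = pure (iso m s i) := by
  apply le_antisymm _ (pure_le_nhds _)
  rw [le_pure_iff]
  have h : IsOpen {p | 0 < ind (iso m s i) p} := isOpen_lt continuous_const (ind _).continuous
  have h2 : {p | 0 < ind (iso m s i) p} = {iso m s i} := by
    ext p
    by_cases hp : p ∈ U (iso m s i)
    · simp only [mem_ofPred_eq, ind_of_mem hp]
      exact ⟨fun _ => hp, fun _ => one_pos⟩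
    · simp only [mem_ofPred_eq, ind_of_not_mem hp]
      exact ⟨fun h => absurd h (lt_irrefl _), fun h => absurd h hp⟩
  rw [h2] at h
  exact h.mem_nhds rfl

lemma continuous_of_cofinite {h : Pt → ℝ} {c : ℝ} (h1 : Tendsto h cofinite (𝓝 c))
    (h2 : ∀ m b, h (br m b) = c) (h3 : h inf = c) : Continuous h := by
  rw [continuous_iff_continuousAt]
  intro p
  cases p with
  | iso m s i =>
    unfold ContinuousAt
    rw [nhds_iso]
    exact tendsto_pure_nhds _ _
  | br m b =>
    rw [continuousAt_iff_punctured_nhds, h2]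
    exact h1.mono_left (nhdsNE_le_cofinite _)
  | inf =>
    rw [continuousAt_iff_punctured_nhds, h3]
    exact h1.mono_left (nhdsNE_le_cofinite _)

lemma iso_inj (m i : ℕ) : Function.Injective (fun s => iso m s i) := by
  intro s s' h
  cases h
  rfl

lemma tendsto_br (m : ℕ) (b : ℕ → ℕ) :
    Tendsto (fun k => iso m (node b k) 1) atTop (𝓝 (br m b)) := by
  apply le_nhds_br
  · rw [← Nat.cofinite_eq_atTop]
    exact ((iso_inj m 1).comp (node_inj b)).tendsto_cofinite
  · exact mem_map.2 (Eventually.of_forall fun k => iso_mem_A.2 ⟨rfl, ⟨k, rfl⟩, Or.inl rfl⟩)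

lemma tendsto_inf (m : ℕ) (b : ℕ → ℕ) :
    Tendsto (fun k => iso m (node b k) 0) atTop (𝓝 inf) := by
  apply le_nhds_inf
  · rw [← Nat.cofinite_eq_atTop]
    exact ((iso_inj m 0).comp (node_inj b)).tendsto_cofinite
  · intro m' b'
    refine mem_map.2 (Eventually.of_forall fun k => ?_)
    intro h
    have := (iso_mem_A.1 h).2.2
    omega

lemma abs_le_of_iso {w : C(Pt, ℝ)} {c : ℝ} (h : ∀ m s i, |w (iso m s i)| ≤ c) (p : Pt) :
    |w p| ≤ c := by
  cases p with
  | iso m s i => exact h m s i
  | br m b =>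
    exact le_of_tendsto' ((w.continuous.tendsto _).comp (tendsto_br m b)).abs fun k => h _ _ _
  | inf =>
    exact le_of_tendsto' ((w.continuous.tendsto _).comp (tendsto_inf 0 id)).abs fun k => h _ _ _

/-- the signed averages -/
noncomputable def G (m : ℕ) (s : List ℕ) (f : C(Pt, ℝ)) : ℝ :=
  (∑ j ∈ Finset.range m, f (iso m s (2 + j)) - f (iso m s 1)) / (m + 1)

lemma tendsto_G {m : ℕ} (hm : 0 < m) (f : C(Pt, ℝ)) :
    Tendsto (fun s => G m s f) cofinite (𝓝 ((m - 1) / (m + 1) * f inf)) := by
  rw [tendsto_iff_ultrafilter]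
  intro u hu
  have hcof : ∀ i, map (fun s => iso m s i) (u : Filter (List ℕ)) ≤ cofinite := fun i =>
    ((iso_inj m i).tendsto_cofinite).mono_left hu
  by_cases hb : ∃ b, range (node b) ∈ u
  · obtain ⟨b, hb⟩ := hb
    obtain ⟨j0, hj0, hj⟩ : ∃ j0 < m, {s | sel m b s = j0} ∈ u := by
      have h1 : (⋃ j ∈ {j | j < m}, {s | sel m b s = j}) ∈ u := by
        have : (⋃ j ∈ {j | j < m}, {s | sel m b s = j}) = univ := by
          ext s
          simp only [mem_ofPred_eq, mem_iUnion, exists_prop, exists_eq_right', mem_univ, iff_true]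
          exact Nat.mod_lt _ hm
        rw [this]
        exact univ_mem
      exact (Ultrafilter.finite_biUnion_mem_iff (Set.finite_lt_nat m)).1 h1
    have t1 : Tendsto (fun s => f (iso m s 1)) u (𝓝 (f (br m b))) := by
      refine (f.continuous.tendsto _).comp (le_nhds_br (hcof 1) ?_)
      refine mem_map.2 ?_
      filter_upwards [hb] with s hs
      exact iso_mem_A.2 ⟨rfl, hs, Or.inl rfl⟩
    have t2 : ∀ j ∈ Finset.range m, Tendsto (fun s => f (iso m s (2 + j))) u
        (𝓝 (f inf + if j = j0 then f (br m b) - f inf else 0)) := by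
      intro j _
      by_cases h : j = j0
      · subst h
        rw [if_pos rfl, add_sub_cancel]
        refine (f.continuous.tendsto _).comp (le_nhds_br (hcof _) ?_)
        refine mem_map.2 ?_
        filter_upwards [hb, hj] with s hs hs'
        exact iso_mem_A.2 ⟨rfl, hs, Or.inr (by rw [hs'])⟩
      · rw [if_neg h, add_zero]
        refine (f.continuous.tendsto _).comp (le_nhds_inf (hcof _) ?_)
        intro m' b'
        refine mem_map.2 ?_
        by_cases hbb : b = b'
        · subst hbb
          filter_upwards [hj] with s hs hs'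
          have := (iso_mem_A.1 hs').2.2
          omega
        · filter_upwards [hb, hu (node_inter_finite hbb).compl_mem_cofinite] with s hs hs2 hs'
          exact hs2 ⟨hs, (iso_mem_A.1 hs').2.1⟩
    have t3 := ((tendsto_finsetSum _ t2).sub t1).div_const ((m : ℝ) + 1)
    unfold G
    convert t3 using 2
    rw [Finset.sum_add_distrib, Finset.sum_ite_eq' , if_pos (Finset.mem_range.2 hj0)]
    simp only [Finset.sum_const, Finset.card_range, nsmul_eq_mul]
    ring
  · push Not at hb
    have t2 : ∀ i, Tendsto (fun s => f (iso m s i)) u (𝓝 (f inf)) := by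
      intro i
      refine (f.continuous.tendsto _).comp (le_nhds_inf (hcof _) ?_)
      intro m' b'
      refine mem_map.2 ?_
      filter_upwards [Ultrafilter.compl_mem_iff_notMem.2 (hb b')] with s hs hs'
      exact hs (iso_mem_A.1 hs').2.1
    have t3 := ((tendsto_finsetSum (Finset.range m) (fun j _ => t2 (2 + j))).sub
      (t2 1)).div_const ((m : ℝ) + 1)
    unfold G
    convert t3 using 2
    simp only [Finset.sum_const, Finset.card_range, nsmul_eq_mul]
    ring

end Pool.Agent.H298Z.BPB
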