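import Mathlib
import Pool.Agent.H298Z.BPBSpace

/-! The operators `T m` and the proof that they have no norming approximants. -/

set_option autoImplicit false

namespace Pool.Agent.H298Z.BPB

open Filter Topology Set Pt

lemma abs_apply_le (f : C(Pt, ℝ)) (p : Pt) : |f p| ≤ ‖f‖ := f.norm_coe_le_norm p

lemma abs_G_le (m : ℕ) (s : List ℕ) (f : C(Pt, ℝ)) : |G m s f| ≤ ‖f‖ := by
  unfold G
  have hm : (0 : ℝ) < m + 1 := by positivity
  rw [abs_div, abs_of_pos hm, div_le_iff₀ hm]
  have h1 : |∑ j ∈ Finset.range m, f (iso m s (2 + j))| ≤ m * ‖f‖ := by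
    refine (Finset.abs_sum_le_sum_abs _ _).trans ?_
    have := Finset.sum_le_card_nsmul (Finset.range m) (fun j => |f (iso m s (2 + j))|) ‖f‖
      (fun j _ => abs_apply_le f _)
    simpa using this
  have h2 := abs_apply_le f (iso m s 1)
  have h3 := abs_sub (∑ j ∈ Finset.range m, f (iso m s (2 + j))) (f (iso m s 1))
  nlinarith

/-- the value of `T m f` at a point -/
noncomputable def Tv (m : ℕ) (f : C(Pt, ℝ)) : Pt → ℝ
  | iso m' s i => if m' = m ∧ i = 0 then G m s f else (m - 1) / (m + 1) * f inf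
  | br _ _ => (m - 1) / (m + 1) * f inf
  | inf => (m - 1) / (m + 1) * f inf

lemma abs_r_le {m : ℕ} (f : C(Pt, ℝ)) : |((m : ℝ) - 1) / (m + 1) * f inf| ≤ ‖f‖ := by
  have hm : (0 : ℝ) < m + 1 := by positivity
  have h0 : (0 : ℝ) ≤ m := by positivity
  have h1 : |((m : ℝ) - 1) / (m + 1)| ≤ 1 := by
    rw [abs_div, abs_of_pos hm, div_le_one hm, abs_le]
    constructor <;> linarith
  rw [abs_mul]
  have h2 := abs_apply_le f inf
  have h3 := abs_nonneg (f inf)
  nlinarith

lemma abs_Tv_le (m : ℕ) (f : C(Pt, ℝ)) (p : Pt) : |Tv m f p| ≤ ‖f‖ := by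
  cases p with
  | iso m' s i =>
    simp only [Tv]
    split_ifs
    · exact abs_G_le _ _ _
    · exact abs_r_le _
  | br m' b => exact abs_r_le _
  | inf => exact abs_r_le _

lemma continuous_Tv {m : ℕ} (hm : 0 < m) (f : C(Pt, ℝ)) : Continuous (Tv m f) := by
  refine continuous_of_cofinite (c := (m - 1) / (m + 1) * f inf) ?_ (fun _ _ => rfl) rfl
  intro V hV
  have h1 : {s | G m s f ∈ V} ∈ (cofinite : Filter (List ℕ)) := tendsto_G hm f hV
  have h2 := mem_of_mem_nhds hV
  rw [mem_map, mem_cofinite]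
  rw [mem_cofinite] at h1
  refine (h1.image (fun s => iso m s 0)).subset ?_
  intro p hp
  cases p with
  | iso m' s i =>
    simp only [mem_compl_iff, mem_preimage, Tv] at hp
    split_ifs at hp with h
    · obtain ⟨rfl, rfl⟩ := h
      exact ⟨s, hp, rfl⟩
    · exact absurd h2 hp
  | br m' b => exact absurd h2 hp
  | inf => exact absurd h2 hp

/-- the operator, as a linear map -/
noncomputable def Tl (m : ℕ) (hm : 0 < m) : C(Pt, ℝ) →ₗ[ℝ] C(Pt, ℝ) where
  toFun f := ⟨Tv m f, continuous_Tv hm f⟩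
  map_add' f g := by
    ext p
    cases p with
    | iso m' s i =>
      simp only [ContinuousMap.coe_mk, Tv, ContinuousMap.add_apply]
      split_ifs
      · simp only [G, ContinuousMap.add_apply, Finset.sum_add_distrib]
        ring
      · ring
    | br m' b =>
      simp only [ContinuousMap.coe_mk, Tv, ContinuousMap.add_apply]
      ring
    | inf =>
      simp only [ContinuousMap.coe_mk, Tv, ContinuousMap.add_apply]
      ring
  map_smul' c f := by
    ext p
    cases p with
    | iso m' s i =>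
      simp only [ContinuousMap.coe_mk, Tv, ContinuousMap.smul_apply, smul_eq_mul, RingHom.id_apply]
      split_ifs
      · simp only [G, ContinuousMap.smul_apply, smul_eq_mul, ← Finset.mul_sum]
        ring
      · ring
    | br m' b =>
      simp only [ContinuousMap.coe_mk, Tv, ContinuousMap.smul_apply, smul_eq_mul, RingHom.id_apply]
      ring
    | inf =>
      simp only [ContinuousMap.coe_mk, Tv, ContinuousMap.smul_apply, smul_eq_mul, RingHom.id_apply]
      ring

lemma norm_Tl_le (m : ℕ) (hm : 0 < m) (f : C(Pt, ℝ)) : ‖Tl m hm f‖ ≤ 1 * ‖f‖ := by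
  rw [one_mul, ContinuousMap.norm_le _ (norm_nonneg _)]
  intro p
  exact abs_Tv_le m f p

/-- the operator -/
noncomputable def T (m : ℕ) (hm : 0 < m) : C(Pt, ℝ) →L[ℝ] C(Pt, ℝ) :=
  (Tl m hm).mkContinuous 1 (norm_Tl_le m hm)

lemma T_apply (m : ℕ) (hm : 0 < m) (f : C(Pt, ℝ)) (p : Pt) : T m hm f p = Tv m f p := rfl

lemma T_inf (m : ℕ) (hm : 0 < m) (f : C(Pt, ℝ)) : T m hm f inf = (m - 1) / (m + 1) * f inf := rfl

lemma T_iso (m : ℕ) (hm : 0 < m) (f : C(Pt, ℝ)) (s : List ℕ) :
    T m hm f (iso m s 0) = G m s f := by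
  simp [T_apply, Tv]

/-- evaluation functional -/
noncomputable def ev (p : Pt) : C(Pt, ℝ) →L[ℝ] ℝ := ContinuousMap.evalCLM ℝ p

lemma ev_apply (p : Pt) (f : C(Pt, ℝ)) : ev p f = f p := rfl

lemma norm_one_eq : ‖(1 : C(Pt, ℝ))‖ = 1 := by
  haveI : Nonempty Pt := ⟨inf⟩
  exact norm_one

lemma norm_ev (p : Pt) : ‖ev p‖ = 1 := by
  apply le_antisymm
  · refine ContinuousLinearMap.opNorm_le_bound _ zero_le_one fun f => ?_
    rw [one_mul]
    exact abs_apply_le f p
  · have := (ev p).le_opNorm 1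
    rw [norm_one_eq, mul_one, ev_apply] at this
    simpa using this

lemma norm_le_one {f : C(Pt, ℝ)} (h : ∀ p, |f p| ≤ 1) : ‖f‖ ≤ 1 :=
  (ContinuousMap.norm_le _ zero_le_one).2 h

lemma norm_eq_one {f : C(Pt, ℝ)} (h : ∀ p, |f p| ≤ 1) {q : Pt} (hq : f q = 1) : ‖f‖ = 1 := by
  apply le_antisymm (norm_le_one h)
  have := abs_apply_le f q
  rw [hq] at this
  simpa using this

/-- the numerical range set -/
def nset (S : C(Pt, ℝ) →L[ℝ] C(Pt, ℝ)) : Set ℝ :=
  {r : ℝ | ∃ (z : C(Pt, ℝ)) (h : C(Pt, ℝ) →L[ℝ] ℝ),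
    ‖z‖ = 1 ∧ ‖h‖ = 1 ∧ h z = 1 ∧ r = |h (S z)|}

lemma nset_le (S : C(Pt, ℝ) →L[ℝ] C(Pt, ℝ)) : ‖S‖ ∈ upperBounds (nset S) := by
  rintro r ⟨z, h, hz, hh, -, rfl⟩
  have h1 := h.le_opNorm (S z)
  have h2 := S.le_opNorm z
  rw [hh, one_mul] at h1
  rw [hz, mul_one] at h2
  exact h1.trans h2

lemma ind_iso (m : ℕ) (s : List ℕ) (i : ℕ) (p : Pt) :
    (p = iso m s i ∧ ind (iso m s i) p = 1) ∨ (p ≠ iso m s i ∧ ind (iso m s i) p = 0) := by
  by_cases h : p = iso m s i
  · exact Or.inl ⟨h, ind_of_mem h⟩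
  · exact Or.inr ⟨h, ind_of_not_mem h⟩

lemma sSup_T (m : ℕ) (hm : 0 < m) : sSup (nset (T m hm)) = 1 := by
  apply IsGreatest.csSup_eq
  constructor
  · refine ⟨1 - (2 : ℝ) • ind (iso m [] 1), ev (iso m [] 0), ?_, norm_ev _, ?_, ?_⟩
    · refine norm_eq_one (q := inf) (fun p => ?_) ?_
      · rcases ind_iso m [] 1 p with h | h <;> simp [h.2] <;> norm_num
      · rcases ind_iso m [] 1 inf with h | h
        · exact absurd h.1 (by simp)
        · simp [h.2]
    · rcases ind_iso m [] 1 (iso m [] 0) with h | h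
      · exact absurd h.1 (by simp)
      · simp [ev_apply, h.2]
    · rw [ev_apply, T_iso]
      have h1 : ∀ j ∈ Finset.range m,
          (1 - (2 : ℝ) • ind (iso m [] 1) : C(Pt, ℝ)) (iso m [] (2 + j)) = 1 := by
        intro j _
        rcases ind_iso m [] 1 (iso m [] (2 + j)) with h | h
        · exfalso
          have := h.1
          simp at this
          omega
        · simp [h.2]
      have h2 : (1 - (2 : ℝ) • ind (iso m [] 1) : C(Pt, ℝ)) (iso m [] 1) = -1 := by
        have : ind (iso m [] 1) (iso m [] 1) = 1 := ind_of_mem rfl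
        simp [this]
        norm_num
      unfold G
      rw [Finset.sum_congr rfl h1, h2]
      simp only [Finset.sum_const, Finset.card_range, nsmul_eq_mul, mul_one, sub_neg_eq_add]
      rw [div_self (by positivity), abs_one]
  · intro r hr
    refine (nset_le _ hr).trans ?_
    exact LinearMap.mkContinuous_norm_le _ zero_le_one _

lemma contraction {S : C(Pt, ℝ) →L[ℝ] C(Pt, ℝ)} (hS : sSup (nset S) = 1) {f : C(Pt, ℝ)}
    (hf : ‖f‖ ≤ 1) (p : Pt) : |S f p| ≤ 1 := by
  have key : ∀ (z : C(Pt, ℝ)) (q : Pt), (∀ p, |z p| ≤ 1) → z q = 1 → |S z q| ≤ 1 := by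
    intro z q hz hq
    rw [← hS]
    exact le_csSup ⟨_, nset_le S⟩ ⟨z, ev q, norm_eq_one hz hq, norm_ev _, hq, rfl⟩
  refine abs_le_of_iso (fun m s i => ?_) p
  set q := iso m s i with hq
  have hfq : ∀ p, |f p| ≤ 1 := fun p => (abs_apply_le f p).trans hf
  have hq1 : ind q q = 1 := ind_of_mem rfl
  have k1 := key (f + (1 - f q) • ind q) q (fun p => by
    rcases ind_iso m s i p with h | h
    · rw [h.1]; simp [← hq, hq1]
    · simp [hq, h.2, hfq p]) (by simp [hq1])
  have k2 := key (-f + (1 + f q) • ind q) q (fun p => by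
    rcases ind_iso m s i p with h | h
    · rw [h.1]; simp [← hq, hq1]
    · simp [hq, h.2, hfq p]) (by simp [hq1])
  simp only [map_add, map_neg, map_smul, ContinuousMap.add_apply, ContinuousMap.neg_apply,
    ContinuousMap.smul_apply, smul_eq_mul] at k1 k2
  have h3 := abs_le.1 (hfq q)
  rw [abs_le] at k1 k2 ⊢
  constructor <;> nlinarith

lemma peak {g : C(Pt, ℝ) →L[ℝ] ℝ} (hg : ‖g‖ = 1) (hc : ‖ev inf - g‖ < 1) {w : C(Pt, ℝ)}
    (hw : ∀ p, |w p| ≤ 1) (h1 : g w = 1) : w inf = 1 := by
  by_contra hne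
  have hlt : w inf < 1 := lt_of_le_of_ne (abs_le.1 (hw inf)).2 hne
  set c : ℝ := 1 - w inf with hc0
  have hcpos : 0 < c := by linarith
  set b : C(Pt, ℝ) := (1 - w) ⊓ ContinuousMap.const Pt c with hb
  have hbp : ∀ p, b p = min (1 - w p) c := fun p => by simp [hb]
  have hb1 : ‖w + b‖ ≤ 1 := by
    refine norm_le_one fun p => ?_
    have := abs_le.1 (hw p)
    rw [ContinuousMap.add_apply, hbp, abs_le]
    rcases le_total (1 - w p) c with h | h
    · rw [min_eq_left h]; constructor <;> linarith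
    · rw [min_eq_right h]; constructor <;> linarith
  have hb2 : ‖b‖ ≤ c := by
    rw [ContinuousMap.norm_le _ hcpos.le]
    intro p
    have := abs_le.1 (hw p)
    rw [hbp, Real.norm_eq_abs, abs_le]
    rcases le_total (1 - w p) c with h | h
    · rw [min_eq_left h]; constructor <;> linarith
    · rw [min_eq_right h]; constructor <;> linarith
  have h2 := g.le_opNorm (w + b)
  rw [hg, one_mul, map_add, h1, Real.norm_eq_abs] at h2
  have h3 := (abs_le.1 (h2.trans hb1)).2
  have h4 := (ev inf - g).le_opNorm b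
  rw [ContinuousLinearMap.sub_apply, ev_apply, hbp, ← hc0, min_self, Real.norm_eq_abs] at h4
  have h5 : ‖ev inf - g‖ * ‖b‖ < c := by
    calc ‖ev inf - g‖ * ‖b‖ ≤ ‖ev inf - g‖ * c := by gcongr
      _ < 1 * c := by gcongr
      _ = c := one_mul c
  have h6 := (abs_lt.1 (h4.trans_lt h5)).2
  linarith

lemma ind_mem (a p : Pt) : ind a p = 0 ∨ ind a p = 1 := by
  by_cases h : p ∈ U a
  · exact Or.inr (ind_of_mem h)
  · exact Or.inl (ind_of_not_mem h)

lemma norm_sum_ind {n : ℕ} (a : ℕ → Pt) (h : ∀ p i j, p ∈ U (a i) → p ∈ U (a j) → i = j) :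
    ‖∑ i ∈ Finset.range n, ind (a i)‖ ≤ 1 := by
  refine norm_le_one fun p => ?_
  rw [ContinuousMap.sum_apply]
  by_cases hp : ∃ i ∈ Finset.range n, p ∈ U (a i)
  · obtain ⟨i, hi, hp⟩ := hp
    rw [Finset.sum_eq_single_of_mem i hi, ind_of_mem hp, abs_one]
    intro j _ hj
    exact ind_of_not_mem fun h' => hj (h p j i h' hp)
  · push Not at hp
    rw [Finset.sum_eq_zero fun i hi => ind_of_not_mem (hp i hi)]
    simp

theorem no_approx (m : ℕ) (hm : 0 < m) (S : C(Pt, ℝ) →L[ℝ] C(Pt, ℝ)) (y : C(Pt, ℝ))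
    (g : C(Pt, ℝ) →L[ℝ] ℝ) (hS : sSup (nset S) = 1) (hy : ‖y‖ = 1) (hg : ‖g‖ = 1)
    (hgS : |g (S y)| = 1) (h1 : ‖1 - y‖ < 1 / 4) (h2 : ‖ev inf - g‖ < 1 / 4)
    (h3 : ‖T m hm - S‖ < 1 / 4) : False := by
  have hm1 : (1 : ℝ) ≤ m := by exact_mod_cast hm
  have hy0 : ∀ p, 0 ≤ y p ∧ y p ≤ 1 := by
    intro p
    have a1 := abs_le.1 ((abs_apply_le (1 - y) p).trans h1.le)
    have a2 := abs_le.1 ((abs_apply_le y p).trans hy.le)
    simp only [ContinuousMap.sub_apply, ContinuousMap.one_apply] at a1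
    constructor <;> linarith
  have hclose : ∀ (f : C(Pt, ℝ)) (p : Pt), ‖f‖ ≤ 1 → |T m hm f p - S f p| ≤ 1 / 4 := by
    intro f p hf
    have a1 := abs_apply_le ((T m hm - S) f) p
    have a2 := (T m hm - S).le_opNorm f
    have a3 : ‖T m hm - S‖ * ‖f‖ ≤ 1 / 4 * 1 := by gcongr
    simp only [ContinuousLinearMap.sub_apply, ContinuousMap.sub_apply] at a1 a2
    linarith
  -- Step A
  have hA : S y inf = 1 := by
    have hw : ∀ p, |S y p| ≤ 1 := contraction hS hy.le
    rcases (abs_eq zero_le_one).1 hgS with h | h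
    · exact peak hg (by linarith) hw h
    · exfalso
      have h4 : (-(S y)) inf = 1 :=
        peak hg (by linarith) (fun p => by simpa using hw p) (by simp [h])
      have h5 := abs_le.1 (hclose y inf hy.le)
      rw [T_inf] at h5
      have h6 : 0 ≤ ((m : ℝ) - 1) / (m + 1) * y inf :=
        mul_nonneg (div_nonneg (by linarith) (by linarith)) (hy0 inf).1
      simp only [ContinuousMap.neg_apply] at h4
      linarith
  -- Step B
  have hB : ∀ (h : C(Pt, ℝ)) (p : Pt), (∀ q, 0 ≤ h q ∧ h q ≤ 1) → S y p - 1 ≤ S h p := by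
    intro h p hh
    have a1 : ‖y - h‖ ≤ 1 := norm_le_one fun q => by
      have := hy0 q
      have := hh q
      rw [ContinuousMap.sub_apply, abs_le]
      constructor <;> linarith
    have a2 := (abs_le.1 (contraction hS a1 p)).2
    simp only [map_sub, ContinuousMap.sub_apply] at a2
    linarith
  -- Step C
  have hC : ∀ s : List ℕ, ∃ j < m, 1 / (4 * (m : ℝ)) ≤ S (ind (iso m s (2 + j))) (iso m s 0) := by
    intro s
    by_contra hcon
    push Not at hcon
    have a1 : ‖∑ j ∈ Finset.range m, ind (iso m s (2 + j))‖ ≤ 1 := by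
      refine norm_sum_ind _ fun p i j hi hj => ?_
      have := (mem_singleton_iff.1 hi).symm.trans (mem_singleton_iff.1 hj)
      simpa using this
    have a2 := (abs_le.1 (hclose _ (iso m s 0) a1)).2
    rw [T_iso] at a2
    have a3 : G m s (∑ j ∈ Finset.range m, ind (iso m s (2 + j))) = m / (m + 1) := by
      unfold G
      have b1 : ∀ i ∈ Finset.range m,
          (∑ j ∈ Finset.range m, ind (iso m s (2 + j))) (iso m s (2 + i)) = 1 := by
        intro i hi
        rw [ContinuousMap.sum_apply, Finset.sum_eq_single_of_mem i hi, ind_of_mem (self_mem_U _)]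
        intro j _ hj
        refine ind_of_not_mem fun h' => hj ?_
        have := mem_singleton_iff.1 h'
        simp at this
        exact this.symm
      have b2 : (∑ j ∈ Finset.range m, ind (iso m s (2 + j))) (iso m s 1) = 0 := by
        rw [ContinuousMap.sum_apply]
        refine Finset.sum_eq_zero fun j _ => ind_of_not_mem fun h' => ?_
        have := mem_singleton_iff.1 h'
        simp at this
        omega
      rw [Finset.sum_congr rfl b1, b2]
      simp
    have a4 : S (∑ j ∈ Finset.range m, ind (iso m s (2 + j))) (iso m s 0) < 1 / 4 := by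
      rw [map_sum, ContinuousMap.sum_apply]
      have := Finset.sum_lt_sum_of_nonempty (s := Finset.range m)
        (Finset.nonempty_range_iff.2 hm.ne') (fun j hj => hcon j (Finset.mem_range.1 hj))
      refine this.trans_le ?_
      simp only [Finset.sum_const, Finset.card_range, nsmul_eq_mul]
      rw [mul_one_div, div_le_div_iff₀ (by positivity) (by positivity)]
      linarith
    have a5 : (1 : ℝ) / 2 ≤ m / (m + 1) := by
      rw [div_le_div_iff₀ (by positivity) (by positivity)]
      linarith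
    linarith
  choose φ hφ hφS using hC
  -- Step D
  let b : ℕ → ℕ → ℕ := fun n k => φ (Denumerable.ofNat (List ℕ) k) + n * m
  have hsel : ∀ n s, sel m (b n) s = φ s := by
    intro n s
    simp only [sel, b, Denumerable.ofNat_encode, Nat.add_mul_mod_self_right]
    exact Nat.mod_eq_of_lt (hφ s)
  have hD : ∀ n, 1 / (4 * (m : ℝ)) ≤ S (ind (br m (b n))) inf := by
    intro n
    have a1 : ∀ k, 1 / (4 * (m : ℝ)) + (S y (iso m (node (b n) k) 0) - 1) ≤
        S (ind (br m (b n))) (iso m (node (b n) k) 0) := by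
      intro k
      set s := node (b n) k with hs
      have a2 := hB (ind (br m (b n)) - ind (iso m s (2 + φ s))) (iso m s 0) (fun q => by
        rw [ContinuousMap.sub_apply]
        rcases ind_iso m s (2 + φ s) q with h | h
        · have : q ∈ U (br m (b n)) := by
            rw [h.1]
            exact iso_mem_A.2 ⟨rfl, ⟨k, rfl⟩, Or.inr (by rw [hsel])⟩
          rw [ind_of_mem this, h.2]
          norm_num
        · rw [h.2]
          rcases ind_mem (br m (b n)) q with h' | h' <;> rw [h'] <;> norm_num)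
      simp only [map_sub, ContinuousMap.sub_apply] at a2
      have a3 := hφS s
      linarith
    have t1 := ((S (ind (br m (b n)))).continuous.tendsto _).comp (tendsto_inf m (b n))
    have t2 := ((((S y).continuous.tendsto _).comp (tendsto_inf m (b n))).sub_const 1).const_add
      (1 / (4 * (m : ℝ)))
    have := le_of_tendsto_of_tendsto' t2 t1 a1
    rw [hA] at this
    linarith
  -- Step E
  have hb0 : ∀ n n', b n 0 = b n' 0 → n = n' := by
    intro n n' h
    simp only [b, add_right_inj] at h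
    exact Nat.eq_of_mul_eq_mul_right hm h
  have hE : ‖∑ n ∈ Finset.range (4 * m + 1), ind (br m (b n))‖ ≤ 1 := by
    refine norm_sum_ind _ fun p i j hi hj => ?_
    cases p with
    | iso m' s l =>
      obtain ⟨-, ⟨k, hk⟩, -⟩ := iso_mem_A.1 hi
      obtain ⟨-, ⟨k', hk'⟩, -⟩ := iso_mem_A.1 hj
      exact hb0 _ _ ((node_eq (hk.trans hk'.symm)).2 0 (Nat.zero_le _))
    | br m' b' =>
      have a1 := (br_mem_A.1 hi).2
      have a2 := (br_mem_A.1 hj).2
      exact hb0 _ _ (congrFun (a1.symm.trans a2) 0)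
    | inf => exact absurd hi inf_not_mem_A
  have hF := (abs_le.1 (contraction hS hE inf)).2
  rw [map_sum, ContinuousMap.sum_apply] at hF
  have hG := Finset.card_nsmul_le_sum (Finset.range (4 * m + 1))
    (fun n => S (ind (br m (b n))) inf) _ (fun n _ => hD n)
  simp only [Finset.card_range, nsmul_eq_mul] at hG
  have hH : (1 : ℝ) < ((4 * m + 1 : ℕ) : ℝ) * (1 / (4 * (m : ℝ))) := by
    rw [mul_one_div, lt_div_iff₀ (by positivity)]
    push_cast
    linarith
  linarith

end Pool.Agent.H298Z.BPB
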