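import Mathlib

/-! In every finite cover of a group by `n` sets some set `A` has no `n + 1` elements that are
pairwise `(A A⁻¹) ^ 3`-separated. The proof uses covering numbers as in the construction of the
Haar measure. -/

set_option autoImplicit false

namespace Pool.Agent.H298Z.Cells

open Set
open scoped Pointwise

variable {G : Type} [Group G]

/-- `U` is covered by at most `m` good sets -/
def Cov (good : Set G → Prop) (U : Set G) (m : ℕ) : Prop :=
  ∃ 𝒟 : Finset (Set G), 𝒟.card ≤ m ∧ (∀ D ∈ 𝒟, good D) ∧ ∀ x ∈ U, ∃ D ∈ 𝒟, x ∈ D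

/-- covering number -/
noncomputable def rho (good : Set G → Prop) (U : Set G) : ℕ := sInf {m | Cov good U m}

section rho

variable {good : Set G → Prop}

omit [Group G] in
lemma rho_le {U : Set G} {m : ℕ} (h : Cov good U m) : rho good U ≤ m := Nat.sInf_le h

omit [Group G] in
lemma rho_cov {M : ℕ} (hM : Cov good univ M) (U : Set G) : Cov good U (rho good U) := by
  obtain ⟨𝒟, h1, h2, h3⟩ := hM
  exact Nat.sInf_mem (s := {m | Cov good U m}) ⟨M, 𝒟, h1, h2, fun x _ => h3 x trivial⟩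

omit [Group G] in
lemma rho_le_top {M : ℕ} (hM : Cov good univ M) (U : Set G) : rho good U ≤ M := by
  obtain ⟨𝒟, h1, h2, h3⟩ := hM
  exact rho_le ⟨𝒟, h1, h2, fun x _ => h3 x trivial⟩

lemma rho_translate {M : ℕ} (hM : Cov good univ M)
    (hinv : ∀ g D, good D → good {x | g * x ∈ D}) (g : G) {U V : Set G}
    (h : ∀ x ∈ U, g * x ∈ V) : rho good U ≤ rho good V := by
  classical
  obtain ⟨𝒟, h1, h2, h3⟩ := rho_cov hM V
  refine rho_le ⟨𝒟.image (fun D => {x | g * x ∈ D}), Finset.card_image_le.trans h1, ?_, ?_⟩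
  · intro D hD
    obtain ⟨D', hD', rfl⟩ := Finset.mem_image.1 hD
    exact hinv g D' (h2 D' hD')
  · intro x hx
    obtain ⟨D, hD, hxD⟩ := h3 _ (h x hx)
    exact ⟨_, Finset.mem_image.2 ⟨D, hD, rfl⟩, hxD⟩

omit [Group G] in
lemma rho_sub {M : ℕ} (hM : Cov good univ M) {ι : Type} (s : Finset ι) (V : ι → Set G)
    {U : Set G} (h : ∀ x ∈ U, ∃ i ∈ s, x ∈ V i) : rho good U ≤ ∑ i ∈ s, rho good (V i) := by
  classical
  choose 𝒟 h1 h2 h3 using fun i => rho_cov hM (V i)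
  refine rho_le ⟨s.biUnion 𝒟, Finset.card_biUnion_le.trans (Finset.sum_le_sum fun i _ => h1 i),
    ?_, ?_⟩
  · intro D hD
    obtain ⟨i, -, hi⟩ := Finset.mem_biUnion.1 hD
    exact h2 i D hi
  · intro x hx
    obtain ⟨i, hi, hxi⟩ := h x hx
    obtain ⟨D, hD, hxD⟩ := h3 i x hxi
    exact ⟨D, Finset.mem_biUnion.2 ⟨i, hi, hD⟩, hxD⟩

omit [Group G] in
lemma rho_far {M : ℕ} (hM : Cov good univ M) {ι : Type} [Fintype ι] (V : ι → Set G)
    (hfar : ∀ D, good D → ∀ i j, (D ∩ V i).Nonempty → (D ∩ V j).Nonempty → i = j) :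
    ∑ i, rho good (V i) ≤ rho good (⋃ i, V i) := by
  classical
  obtain ⟨𝒟, h1, h2, h3⟩ := rho_cov hM (⋃ i, V i)
  have h4 : ∀ i, rho good (V i) ≤ (𝒟.filter (fun D => (D ∩ V i).Nonempty)).card := by
    intro i
    refine rho_le ⟨_, le_rfl, fun D hD => h2 D (Finset.mem_filter.1 hD).1, fun x hx => ?_⟩
    obtain ⟨D, hD, hxD⟩ := h3 x (mem_iUnion.2 ⟨i, hx⟩)
    exact ⟨D, Finset.mem_filter.2 ⟨hD, x, hxD, hx⟩, hxD⟩
  refine (Finset.sum_le_sum fun i _ => h4 i).trans (le_trans ?_ h1)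
  rw [← Finset.card_biUnion]
  · exact Finset.card_le_card (Finset.biUnion_subset.2 fun i _ => Finset.filter_subset _ _)
  · intro i _ j _ hij
    refine Finset.disjoint_left.2 fun D hi hj => hij ?_
    exact hfar D (h2 D (Finset.mem_filter.1 hi).1) i j (Finset.mem_filter.1 hi).2
      (Finset.mem_filter.1 hj).2

omit [Group G] in
lemma rho_pos {M : ℕ} (hM : Cov good univ M) {U : Set G} (h : U.Nonempty) : 0 < rho good U := by
  obtain ⟨𝒟, h1, -, h3⟩ := rho_cov hM U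
  obtain ⟨x, hx⟩ := h
  obtain ⟨D, hD, -⟩ := h3 x hx
  exact (Finset.card_pos.2 ⟨D, hD⟩).trans_le h1

omit [Group G] in
lemma rho_empty : rho good (∅ : Set G) = 0 :=
  Nat.le_zero.1 (rho_le ⟨∅, by simp, by simp, by simp⟩)

end rho

/-- `B⁻¹ B` is not syndetic -/
def Small (B : Set G) : Prop :=
  ∀ F : Finset G, ∃ g : G, ∀ f ∈ F, ∀ a ∈ B, ∀ b ∈ B, g ≠ a⁻¹ * b * f

lemma small_not_cover {ι : Type} (B : ι → Set G) (s : Finset ι) (hs : ∀ i ∈ s, Small (B i)) :
    ∀ E : Finset G, ∃ x : G, ∀ i ∈ s, ∀ e ∈ E, x * e⁻¹ ∉ B i := by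
  classical
  induction s using Finset.induction_on with
  | empty => exact fun E => ⟨1, by simp⟩
  | insert m s _ ih =>
    intro E
    obtain ⟨g, hg⟩ := hs m (Finset.mem_insert_self _ _) E
    obtain ⟨x, hx⟩ := ih (fun i hi => hs i (Finset.mem_insert_of_mem hi))
      (E ∪ Finset.image₂ (fun e e' => e * g⁻¹ * e') E E)
    by_cases hm : ∃ e ∈ E, x * e⁻¹ ∈ B m
    · obtain ⟨e', he', hxe⟩ := hm
      refine ⟨x * e'⁻¹ * g, fun i hi e he hmem => ?_⟩
      rcases Finset.mem_insert.1 hi with rfl | hi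
      · exact hg e he _ hxe _ hmem (by group)
      · refine hx i hi (e * g⁻¹ * e')
          (Finset.mem_union_right _ (Finset.mem_image₂_of_mem he he')) ?_
        convert hmem using 1
        group
    · push Not at hm
      refine ⟨x, fun i hi e he => ?_⟩
      rcases Finset.mem_insert.1 hi with rfl | hi
      · exact hm e he
      · exact hx i hi e (Finset.mem_union_left _ he)

theorem exists_cell {n : ℕ} (A : Fin n → Set G) (hA : ∀ x, ∃ i, x ∈ A i) :
    ∃ i, (A i).Nonempty ∧ ∀ g : Fin (n + 1) → G,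
      ∃ s t, s ≠ t ∧ (g s)⁻¹ * g t ∈ (A i * (A i)⁻¹) ^ 3 := by
  classical
  let good : Set G → Prop := fun D => ∀ j, ¬ Small (A j) → ∀ x ∈ D, ∀ y ∈ D,
    ∃ b₁ ∈ A j, ∃ b₂ ∈ A j, ∃ b₃ ∈ A j, ∃ b₄ ∈ A j, x⁻¹ * y = b₁⁻¹ * b₂ * (b₃⁻¹ * b₄)
  have hinv : ∀ g D, good D → good {x | g * x ∈ D} := by
    intro g D hD j hj x hx y hy
    have := hD j hj _ hx _ hy
    rwa [show (g * x)⁻¹ * (g * y) = x⁻¹ * y by group] at this
  obtain ⟨M, hM⟩ : ∃ M, Cov good univ M := by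
    have h1 : ∀ j, ∃ F : Finset G, ∀ g : G, ∃ f ∈ F, ¬ Small (A j) →
        ∃ a ∈ A j, ∃ b ∈ A j, g = a⁻¹ * b * f := by
      intro j
      by_cases hj : Small (A j)
      · exact ⟨{1}, fun g => ⟨1, by simp, fun h => absurd hj h⟩⟩
      · have h2 := hj
        unfold Small at h2
        push Not at h2
        obtain ⟨F, hF⟩ := h2
        refine ⟨F, fun g => ?_⟩
        obtain ⟨f, hf, h⟩ := hF g
        exact ⟨f, hf, fun _ => h⟩
    choose F hF using h1
    refine ⟨_, (Fintype.piFinset F).image (fun φ => {x | ∀ j, ¬ Small (A j) →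
      ∃ a ∈ A j, ∃ b ∈ A j, x⁻¹ = a⁻¹ * b * φ j}), le_rfl, ?_, ?_⟩
    · intro D hD
      obtain ⟨φ, -, rfl⟩ := Finset.mem_image.1 hD
      intro j hj x hx y hy
      obtain ⟨a, ha, b, hb, h1⟩ := hx j hj
      obtain ⟨a', ha', b', hb', h2⟩ := hy j hj
      refine ⟨a, ha, b, hb, b', hb', a', ha', ?_⟩
      rw [h1, ← inv_inv y, h2]
      group
    · intro x _
      choose φ hφ h using fun j => hF j x⁻¹
      exact ⟨_, Finset.mem_image.2 ⟨φ, Fintype.mem_piFinset.2 hφ, rfl⟩, h⟩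
  obtain ⟨E, hE⟩ : ∃ E : Finset G, ∀ E' : Finset G, rho good (E' : Set G) ≤ rho good (E : Set G) := by
    have hb : BddAbove (range fun E : Finset G => rho good (E : Set G)) :=
      ⟨M, by rintro _ ⟨E, rfl⟩; exact rho_le_top hM _⟩
    obtain ⟨E, hE⟩ := Nat.sSup_mem (range_nonempty fun E : Finset G => rho good (E : Set G)) hb
    exact ⟨E, fun E' => (le_csSup hb ⟨E', rfl⟩).trans hE.ge⟩
  have hpos : 0 < rho good (E : Set G) :=
    (rho_pos hM (U := (({1} : Finset G) : Set G)) ⟨1, by simp⟩).trans_le (hE {1})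
  obtain ⟨x, hx⟩ := small_not_cover A (Finset.univ.filter fun j => Small (A j))
    (fun i hi => (Finset.mem_filter.1 hi).2) (E.image (·⁻¹))
  let V : Fin n → Finset G := fun j => E.filter fun e => x * e ∈ A j
  have h1 : rho good (E : Set G) ≤ ∑ j, rho good (V j : Set G) := by
    refine rho_sub hM _ _ fun e he => ?_
    obtain ⟨j, hj⟩ := hA (x * e)
    exact ⟨j, Finset.mem_univ _, by simpa [V] using ⟨he, hj⟩⟩
  obtain ⟨j0, -⟩ := hA 1
  obtain ⟨j, -, hj⟩ := Finset.exists_max_image Finset.univ (fun j => rho good (V j : Set G))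
    ⟨j0, Finset.mem_univ _⟩
  have h2 : rho good (E : Set G) ≤ n * rho good (V j : Set G) := by
    refine h1.trans ?_
    simpa using Finset.sum_le_card_nsmul Finset.univ _ _ hj
  have h3 : (V j).Nonempty := by
    rw [Finset.nonempty_iff_ne_empty]
    intro h
    rw [h, Finset.coe_empty, rho_empty] at h2
    omega
  obtain ⟨e0, he0⟩ := h3
  have he0' := Finset.mem_filter.1 he0
  have hns : ¬ Small (A j) := by
    intro h
    refine hx j (Finset.mem_filter.2 ⟨Finset.mem_univ _, h⟩) e0⁻¹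
      (Finset.mem_image_of_mem _ he0'.1) ?_
    simpa using he0'.2
  refine ⟨j, ⟨_, he0'.2⟩, fun g => ?_⟩
  by_contra hcon
  push Not at hcon
  let W : Fin (n + 1) → Finset G := fun t => (V j).image fun e => g t * (x * e)
  have h4 := rho_far hM (fun t => (W t : Set G)) (by
    rintro D hD s t ⟨y, hyD, hy⟩ ⟨z, hzD, hz⟩
    by_contra hst
    obtain ⟨e, he, rfl⟩ := Finset.mem_image.1 (Finset.mem_coe.1 hy)
    obtain ⟨e', he', rfl⟩ := Finset.mem_image.1 (Finset.mem_coe.1 hz)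
    obtain ⟨b₁, hb₁, b₂, hb₂, b₃, hb₃, b₄, hb₄, h⟩ := hD j hns _ hyD _ hzD
    apply hcon s t hst
    have ha := (Finset.mem_filter.1 he).2
    have ha' := (Finset.mem_filter.1 he').2
    have h5 : (g s)⁻¹ * g t = (x * e * b₁⁻¹) * ((b₂ * b₃⁻¹) * (b₄ * (x * e')⁻¹)) := by
      calc (g s)⁻¹ * g t = (x * e) * ((g s * (x * e))⁻¹ * (g t * (x * e'))) * (x * e')⁻¹ := by
            group
        _ = _ := by rw [h]; group
    rw [h5, pow_three]
    exact mul_mem_mul (mul_mem_mul ha (inv_mem_inv.2 hb₁))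
      (mul_mem_mul (mul_mem_mul hb₂ (inv_mem_inv.2 hb₃)) (mul_mem_mul hb₄ (inv_mem_inv.2 ha'))))
  have h5 : ∀ t, rho good (V j : Set G) ≤ rho good (W t : Set G) := fun t =>
    rho_translate hM hinv (g t * x) fun e he =>
      Finset.mem_coe.2 (Finset.mem_image.2 ⟨e, he, by group⟩)
  have h6 : (n + 1) * rho good (V j : Set G) ≤ ∑ t, rho good (W t : Set G) := by
    simpa using Finset.card_nsmul_le_sum Finset.univ _ _ (fun t _ => h5 t)
  have h7 : rho good (⋃ t, (W t : Set G)) ≤ rho good (E : Set G) := by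
    have := hE (Finset.univ.biUnion W)
    simpa [Finset.coe_biUnion] using this
  have h8 := rho_pos hM (U := (V j : Set G)) ⟨e0, he0⟩
  nlinarith

/-- a stable power of a symmetric set containing `1` is a subgroup -/
lemma exists_subgroup {R : Set G} (h1 : (1 : G) ∈ R) (hs : R⁻¹ = R) {k K : ℕ} (hk : k ≤ K)
    (h : R ^ (k + 1) ⊆ R ^ k) : ∃ H : Subgroup G, R ^ K = (H : Set G) ∧ ∀ l, R ^ l ⊆ H := by
  have h2 : ∀ l, R ^ (k + l) ⊆ R ^ k := by
    intro l
    induction l with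
    | zero => exact subset_rfl
    | succ l ih =>
      rw [← add_assoc, pow_succ]
      exact (mul_subset_mul_right ih).trans (by rwa [← pow_succ])
  have h3 : ∀ l, R ^ l ⊆ R ^ K := fun l =>
    ((Set.pow_subset_pow_right h1 (Nat.le_add_left l k)).trans (h2 l)).trans
      (Set.pow_subset_pow_right h1 hk)
  refine ⟨{ carrier := R ^ K
            mul_mem' := fun {a b} ha hb => h3 (K + K) (by rw [pow_add]; exact mul_mem_mul ha hb)
            one_mem' := h3 0 (by simp)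
            inv_mem' := fun {a} ha => by
              have : a⁻¹ ∈ (R ^ K)⁻¹ := inv_mem_inv.2 ha
              rwa [← inv_pow, hs] at this }, rfl, h3⟩

lemma index_le {H : Subgroup G} {n : ℕ}
    (h : ∀ g : Fin (n + 1) → G, ∃ s t, s ≠ t ∧ (g s)⁻¹ * g t ∈ H) : H.index ≠ 0 ∧ H.index ≤ n := by
  have h1 : ¬ Nonempty (Fin (n + 1) ↪ G ⧸ H) := by
    rintro ⟨φ⟩
    obtain ⟨s, t, hst, hg⟩ := h fun i => (φ i).out
    apply hst
    apply φ.injective
    rw [← QuotientGroup.out_eq' (φ s), ← QuotientGroup.out_eq' (φ t)]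
    exact QuotientGroup.eq.2 hg
  have h2 : Finite (G ⧸ H) := by
    by_contra h2
    rw [not_finite_iff_infinite] at h2
    exact h1 ⟨Fin.valEmbedding.trans (Infinite.natEmbedding _)⟩
  refine ⟨Subgroup.index_ne_zero_of_finite, ?_⟩
  by_contra h3
  apply h1
  have := Fintype.ofFinite (G ⧸ H)
  apply Function.Embedding.nonempty_of_card_le
  rw [Subgroup.index, Nat.card_eq_fintype_card] at h3
  simp only [Fintype.card_fin]
  omega

lemma pow_stable {R : Set G} (h1 : (1 : G) ∈ R) (hs : R⁻¹ = R) {n : ℕ} (hn : 0 < n)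
    (h : ∀ g : Fin (n + 1) → G, ∃ s t, s ≠ t ∧ (g s)⁻¹ * g t ∈ R ^ 3) :
    R ^ (4 * n - 1 + 1) ⊆ R ^ (4 * n - 1) := by
  intro x hx
  have h2 : ∀ i : Fin (n + 1), ∃ u ∈ R ^ (4 * i.1), ∃ v ∈ R ^ (4 * (n - i.1)), u * v = x := by
    intro i
    have : 4 * n - 1 + 1 = 4 * i.1 + 4 * (n - i.1) := by omega
    rw [this, pow_add] at hx
    exact mem_mul.1 hx
  choose u hu v hv huv using h2
  have key : ∀ s t, s < t → (u s)⁻¹ * u t ∈ R ^ 3 → x ∈ R ^ (4 * n - 1) := by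
    intro s t hst hm
    have h3 : x = u s * ((u s)⁻¹ * u t) * v t := by rw [← huv t]; group
    have h4 : x ∈ R ^ (4 * s.1 + 3 + 4 * (n - t.1)) := by
      rw [h3, pow_add, pow_add]
      exact mul_mem_mul (mul_mem_mul (hu s) hm) (hv t)
    refine Set.pow_subset_pow_right h1 ?_ h4
    have : s.1 < t.1 := hst
    omega
  obtain ⟨s, t, hst, hm⟩ := h u
  rcases lt_or_gt_of_ne hst with h' | h'
  · exact key s t h' hm
  · refine key t s h' ?_
    have : ((u s)⁻¹ * u t)⁻¹ ∈ (R ^ 3)⁻¹ := inv_mem_inv.2 hm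
    rw [← inv_pow, hs] at this
    simpa using this

lemma one_mem_diff {A : Set G} (h : A.Nonempty) : (1 : G) ∈ A * A⁻¹ := by
  obtain ⟨a, ha⟩ := h
  exact ⟨a, ha, a⁻¹, inv_mem_inv.2 ha, by simp⟩

lemma diff_symm (A : Set G) : (A * A⁻¹)⁻¹ = A * A⁻¹ := by simp

lemma of_univ {A : Set G} (h : A * A⁻¹ = univ) {K n : ℕ} (hK : K ≠ 0) (hn : 1 ≤ n) :
    ∃ H : Subgroup G, (A * A⁻¹) ^ K = (H : Set G) ∧ H.index ≠ 0 ∧ H.index ≤ n := by
  refine ⟨⊤, ?_, by simp, by simpa using hn⟩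
  rw [h, Subgroup.coe_top]
  exact Set.univ_pow hK

lemma two_cells {A B : Set G} (hAB : ∀ x, x ∈ A ∨ x ∈ B) (hB : B * B⁻¹ ≠ univ) :
    ∃ H : Subgroup G, (A * A⁻¹) ^ 4 = (H : Set G) ∧ H.index ≠ 0 ∧ H.index ≤ 2 := by
  obtain ⟨g, hg⟩ := (ne_univ_iff_exists_notMem _).1 hB
  have hA : A.Nonempty := by
    rcases hAB g with h | h
    · exact ⟨g, h⟩
    · rcases hAB 1 with h' | h'
      · exact ⟨1, h'⟩
      · exact absurd ⟨g, h, 1⁻¹, inv_mem_inv.2 h', by simp⟩ hg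
  set R := A * A⁻¹ with hR
  have h1 : (1 : G) ∈ R := one_mem_diff hA
  have hs : R⁻¹ = R := diff_symm A
  have key : ∀ h, h ∉ R → g * h ∈ R := by
    intro h hh
    obtain ⟨a, ha⟩ := hA
    have h2 : h * a ∈ B := by
      refine (hAB _).resolve_left fun h' => hh ⟨_, h', a⁻¹, inv_mem_inv.2 ha, by simp⟩
    have h3 : g * (h * a) ∈ A := by
      refine (hAB _).resolve_right fun h' => hg ⟨_, h', (h * a)⁻¹, inv_mem_inv.2 h2, by group⟩
    exact ⟨_, h3, a⁻¹, inv_mem_inv.2 ha, by group⟩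
  have key2 : ∀ x y, x ∉ R → y ∉ R → x⁻¹ * y ∈ R ^ 2 := by
    intro x y hx hy
    have h2 : (g * x)⁻¹ ∈ R := by
      rw [← hs]
      exact inv_mem_inv.2 (key x hx)
    rw [pow_two, show x⁻¹ * y = (g * x)⁻¹ * (g * y) by group]
    exact mul_mem_mul h2 (key y hy)
  have hst : R ^ (4 + 1) ⊆ R ^ 4 := by
    by_cases h : R ^ (1 + 1) ⊆ R ^ 1
    · obtain ⟨H, hH, hH'⟩ := exists_subgroup h1 hs (by norm_num : 1 ≤ 4) h
      rw [hH]
      exact hH' _
    · obtain ⟨y, hy, hy'⟩ := not_subset.1 h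
      rw [pow_one] at hy'
      intro x _
      by_cases hx : x ∈ R
      · exact Set.pow_subset_pow_right h1 (by norm_num : 1 ≤ 4) (by simpa using hx)
      · rw [show x = y * (y⁻¹ * x) by group, show 4 = (1 + 1) + 2 by rfl, pow_add]
        exact mul_mem_mul hy (key2 y x hy' hx)
  obtain ⟨H, hH, hH'⟩ := exists_subgroup h1 hs le_rfl hst
  refine ⟨H, hH, index_le fun u => ?_⟩
  by_cases a1 : (u 0)⁻¹ * u 1 ∈ R
  · exact ⟨0, 1, by decide, hH' 1 (by simpa using a1)⟩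
  by_cases a2 : (u 0)⁻¹ * u 2 ∈ R
  · exact ⟨0, 2, by decide, hH' 1 (by simpa using a2)⟩
  refine ⟨1, 2, by decide, hH' 2 ?_⟩
  have := key2 _ _ a1 a2
  rwa [show ((u 0)⁻¹ * u 1)⁻¹ * ((u 0)⁻¹ * u 2) = (u 1)⁻¹ * u 2 by group] at this

theorem main {n : ℕ} (A : Fin n → Set G) (hA : ∀ x, ∃ i, x ∈ A i) :
    ∃ i : Fin n, ∃ H : Subgroup G,
      ((A i * (A i)⁻¹) ^ (4 ^ (n - 1)) : Set G) = (H : Set G) ∧ H.index ≠ 0 ∧ H.index ≤ n := by
  rcases Nat.lt_or_ge n 3 with hn | hn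
  · interval_cases n
    · obtain ⟨i, -⟩ := hA 1
      exact i.elim0
    · refine ⟨0, of_univ ?_ (by norm_num) le_rfl⟩
      have h : ∀ x, x ∈ A 0 := fun x => by
        obtain ⟨i, hi⟩ := hA x
        rwa [Subsingleton.elim i 0] at hi
      exact eq_univ_of_forall fun x => ⟨x, h x, 1⁻¹, inv_mem_inv.2 (h 1), by simp⟩
    · by_cases h : A 1 * (A 1)⁻¹ = univ
      · exact ⟨1, of_univ h (by norm_num) (by norm_num)⟩
      · refine ⟨0, two_cells (fun x => ?_) h⟩
        obtain ⟨i, hi⟩ := hA x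
        fin_cases i
        · exact Or.inl hi
        · exact Or.inr hi
  · obtain ⟨i, hne, hi⟩ := exists_cell A hA
    have h1 := one_mem_diff hne
    have hs := diff_symm (A i)
    have hle : 4 * n - 1 ≤ 4 ^ (n - 1) := by
      obtain ⟨k, rfl⟩ : ∃ k, n = k + 3 := ⟨n - 3, by omega⟩
      have : k + 1 ≤ 4 ^ k := Nat.lt_pow_self (by norm_num)
      have h2 : 4 ^ (k + 3 - 1) = 16 * 4 ^ k := by
        rw [show k + 3 - 1 = k + 2 by omega, pow_add]; ring
      omega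
    obtain ⟨H, hH, hH'⟩ := exists_subgroup h1 hs hle (pow_stable h1 hs (by omega) hi)
    refine ⟨i, H, hH, index_le fun g => ?_⟩
    obtain ⟨s, t, hst, h⟩ := hi g
    exact ⟨s, t, hst, hH' 3 h⟩

end Pool.Agent.H298Z.Cells
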