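import Mathlib

/-! Sets of positive upper density, IP sets and a multiplicatively idempotent ultrafilter all of
whose members are IP sets of positive upper density. -/

set_option autoImplicit false

namespace Pool.Agent.H298Z.PR

open Filter Set

open Classical in
/-- counting function -/
noncomputable def cnt (B : Set ℕ) (N : ℕ) : ℕ := ((Finset.range N).filter (· ∈ B)).card

/-- positive upper density -/
def Large (B : Set ℕ) : Prop := ∃ k : ℕ, ∃ᶠ N in atTop, N ≤ k * cnt B N

lemma cnt_mono {B C : Set ℕ} (h : B ⊆ C) (N : ℕ) : cnt B N ≤ cnt C N := by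
  classical
  unfold cnt
  apply Finset.card_le_card
  intro n
  simp only [Finset.mem_filter]
  exact fun hn => ⟨hn.1, h hn.2⟩

lemma Large.mono {B C : Set ℕ} (hB : Large B) (h : B ⊆ C) : Large C := by
  obtain ⟨k, hk⟩ := hB
  exact ⟨k, hk.mono fun N hN => hN.trans (Nat.mul_le_mul_left _ (cnt_mono h N))⟩

lemma cnt_union (B C : Set ℕ) (N : ℕ) : cnt (B ∪ C) N ≤ cnt B N + cnt C N := by
  classical
  unfold cnt
  refine le_trans (Finset.card_le_card ?_) (Finset.card_union_le _ _)
  intro n
  simp only [Finset.mem_filter, Finset.mem_union, mem_union]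
  tauto

lemma Large.union {B C : Set ℕ} (h : Large (B ∪ C)) : Large B ∨ Large C := by
  obtain ⟨k, hk⟩ := h
  have : ∃ᶠ N in atTop, N ≤ (2 * k) * cnt B N ∨ N ≤ (2 * k) * cnt C N := by
    refine hk.mono fun N hN => ?_
    have h1 := Nat.mul_le_mul_left k (cnt_union B C N)
    rcases le_total (cnt B N) (cnt C N) with h2 | h2
    · right; nlinarith [Nat.mul_le_mul_left k h2]
    · left; nlinarith [Nat.mul_le_mul_left k h2]
  rcases frequently_or_distrib.1 this with h | h
  · exact Or.inl ⟨_, h⟩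
  · exact Or.inr ⟨_, h⟩

lemma large_univ : Large univ := by
  refine ⟨1, Frequently.of_forall fun N => ?_⟩
  simp [cnt]

lemma Large.infinite {B : Set ℕ} (h : Large B) : B.Infinite := by
  classical
  intro hf
  obtain ⟨k, hk⟩ := h
  obtain ⟨N, hN, hN'⟩ := (hk.and_eventually (eventually_gt_atTop (k * hf.toFinset.card))).exists
  have : cnt B N ≤ hf.toFinset.card := by
    unfold cnt
    apply Finset.card_le_card
    intro n
    simp only [Finset.mem_filter, Finite.mem_toFinset]
    exact fun hn => hn.2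
  have := Nat.mul_le_mul_left k this
  omega

lemma Large.of_preimage {B : Set ℕ} {f : ℕ → ℕ} (hf : Function.Injective f) {C : ℕ}
    (hC : ∀ n, f n < C * (n + 1)) (h : Large (f ⁻¹' B)) : Large B := by
  classical
  obtain ⟨k, hk⟩ := h
  have hC0 : 0 < C := by
    have := hC 0
    omega
  refine ⟨C * k, ?_⟩
  rw [frequently_atTop] at hk ⊢
  intro a
  obtain ⟨N, hN, hN'⟩ := hk a
  refine ⟨C * N, by nlinarith, ?_⟩
  have : cnt (f ⁻¹' B) N ≤ cnt B (C * N) := by
    unfold cnt
    refine Finset.card_le_card_of_injOn f ?_ hf.injOn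
    intro n hn
    simp only [Finset.coe_filter, Finset.mem_range, mem_ofPred_eq, mem_preimage] at hn ⊢
    refine ⟨(hC n).trans_le (Nat.mul_le_mul_left _ hn.1), hn.2⟩
  calc C * N ≤ C * (k * cnt (f ⁻¹' B) N) := Nat.mul_le_mul_left _ hN'
    _ ≤ C * (k * cnt B (C * N)) := by gcongr
    _ = C * k * cnt B (C * N) := by ring

lemma Large.of_add {B : Set ℕ} {m : ℕ} (h : Large {n | m + n ∈ B}) : Large B :=
  Large.of_preimage (f := fun n => m + n) (add_right_injective m) (C := m + 1)
    (fun n => by nlinarith) h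

lemma Large.of_mul {B : Set ℕ} {m : ℕ} (hm : 0 < m) (h : Large {n | m * n ∈ B}) : Large B :=
  Large.of_preimage (f := fun n => m * n) (mul_right_injective₀ hm.ne') (C := m)
    (fun n => by nlinarith) h

lemma Large.biUnion {ι : Type} (s : Finset ι) (S : ι → Set ℕ) (h : Large (⋃ i ∈ s, S i)) :
    ∃ i ∈ s, Large (S i) := by
  classical
  induction s using Finset.induction_on with
  | empty =>
    exfalso
    apply h.infinite
    simp
  | insert a s _ ih =>
    rw [Finset.set_biUnion_insert] at h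
    rcases h.union with h | h
    · exact ⟨a, Finset.mem_insert_self _ _, h⟩
    · obtain ⟨i, hi, h⟩ := ih h
      exact ⟨i, Finset.mem_insert_of_mem hi, h⟩

lemma cnt_shift (B : Set ℕ) (s N : ℕ) : cnt B N ≤ s + cnt {n | s + n ∈ B} N := by
  classical
  unfold cnt
  have h1 : (Finset.range N).filter (· ∈ B) ⊆ Finset.range s ∪
      ((Finset.range N).filter (· ∈ {n | s + n ∈ B})).image (fun n => s + n) := by
    intro n
    simp only [Finset.mem_filter, Finset.mem_range, Finset.mem_union, Finset.mem_image,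
      mem_ofPred_eq]
    intro hn
    by_cases h : n < s
    · exact Or.inl h
    · refine Or.inr ⟨n - s, ⟨by omega, ?_⟩, by omega⟩
      have : s + (n - s) = n := by omega
      rw [this]
      exact hn.2
  refine (Finset.card_le_card h1).trans ((Finset.card_union_le _ _).trans ?_)
  rw [Finset.card_range]
  refine Nat.add_le_add_left (Finset.card_image_le.trans (le_of_eq ?_)) _
  congr

lemma Large.recur {B : Set ℕ} (h : Large B) (s : ℕ → ℕ) :
    ∃ i j, i < j ∧ Large {n | s i + n ∈ B ∧ s j + n ∈ B} := by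
  classical
  obtain ⟨k, hk⟩ := h
  set M := 4 * k with hM
  set P := (Finset.range M ×ˢ Finset.range M).filter (fun p => p.1 < p.2) with hP
  set D := ⋃ p ∈ P, {n | s p.1 + n ∈ B ∧ s p.2 + n ∈ B} with hD
  have hDl : Large D := by
    refine ⟨M, ?_⟩
    refine (hk.and_eventually
      (eventually_gt_atTop (2 * k * ∑ i ∈ Finset.range M, s i))).mono fun N hN => ?_
    obtain ⟨h1, h2⟩ := hN
    have hk0 : 0 < k := by
      rcases Nat.eq_zero_or_pos k with h | h
      · rw [h] at h1 h2; omega
      · exact h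
    have h3 : ∀ i ∈ Finset.range M, N ≤ 2 * k * cnt {n | s i + n ∈ B} N := by
      intro i hi
      have a1 := Nat.mul_le_mul_left k (cnt_shift B (s i) N)
      have a2 : s i ≤ ∑ i ∈ Finset.range M, s i :=
        Finset.single_le_sum (f := s) (fun _ _ => Nat.zero_le _) hi
      have a3 := Nat.mul_le_mul_left (2 * k) a2
      nlinarith
    have h4 : M * N ≤ 2 * k * ∑ i ∈ Finset.range M, cnt {n | s i + n ∈ B} N := by
      rw [Finset.mul_sum]
      have := Finset.card_nsmul_le_sum (Finset.range M) _ _ h3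
      simpa using this
    have h5 : ∑ i ∈ Finset.range M, cnt {n | s i + n ∈ B} N ≤ N + M * cnt D N := by
      unfold cnt
      simp only [Finset.card_filter]
      rw [Finset.sum_comm, Finset.mul_sum]
      have : N = ∑ n ∈ Finset.range N, 1 := by simp
      conv_rhs => enter [1]; rw [this]
      rw [← Finset.sum_add_distrib]
      refine Finset.sum_le_sum fun n _ => ?_
      rw [← Finset.card_filter]
      by_cases hn : n ∈ D
      · rw [if_pos hn, mul_one]
        refine (Finset.card_filter_le _ _).trans ?_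
        simp
      · rw [if_neg hn, mul_zero, add_zero, Finset.card_le_one]
        intro a ha b hb
        simp only [Finset.mem_filter, Finset.mem_range, mem_ofPred_eq] at ha hb
        by_contra hab
        apply hn
        simp only [hD, mem_iUnion, mem_ofPred_eq, hP, Finset.mem_filter, Finset.mem_product,
          Finset.mem_range]
        rcases lt_or_gt_of_ne hab with h | h
        · exact ⟨(a, b), ⟨⟨ha.1, hb.1⟩, h⟩, ha.2, hb.2⟩
        · exact ⟨(b, a), ⟨⟨hb.1, ha.1⟩, h⟩, hb.2, ha.2⟩
    have h6 : 2 * k * (2 * N) ≤ 2 * k * (N + M * cnt D N) := by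
      calc 2 * k * (2 * N) = M * N := by rw [hM]; ring
        _ ≤ _ := h4
        _ ≤ _ := Nat.mul_le_mul_left _ h5
    have h7 := Nat.le_of_mul_le_mul_left h6 (by omega)
    omega
  obtain ⟨p, hp, hl⟩ := Large.biUnion P _ hDl
  exact ⟨p.1, p.2, (Finset.mem_filter.1 hp).2, hl⟩

/-- IP sets -/
def IP (B : Set ℕ) : Prop := ∃ a : ℕ → ℕ, ∀ s : Finset ℕ, s.Nonempty → ∑ i ∈ s, a i ∈ B

lemma Large.recur_IP {B C : Set ℕ} (h : Large B) (hC : IP C) (c : ℕ) :
    ∃ w ∈ C, Large {n | n ∈ B ∧ n + c * w ∈ B} := by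
  obtain ⟨a, ha⟩ := hC
  obtain ⟨i, j, hij, hl⟩ := h.recur (fun i => c * ∑ l ∈ Finset.range i, a l)
  refine ⟨∑ l ∈ Finset.Ico i j, a l, ha _ (Finset.nonempty_Ico.2 hij), ?_⟩
  refine Large.of_add (m := c * ∑ l ∈ Finset.range i, a l) (hl.mono ?_)
  intro n hn
  refine ⟨hn.1, ?_⟩
  have := hn.2
  rw [← Finset.sum_range_add_sum_Ico a hij.le] at this
  convert this using 1
  ring

lemma isClosed_all (P : Set ℕ → Prop) : IsClosed {u : Ultrafilter ℕ | ∀ B ∈ u, P B} := by
  have : {u : Ultrafilter ℕ | ∀ B ∈ u, P B} = ⋂ B ∈ {B | ¬ P B}, {u | Bᶜ ∈ u} := by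
    ext u
    simp only [mem_ofPred_eq, mem_iInter, Ultrafilter.compl_mem_iff_notMem]
    exact ⟨fun h B hB hu => hB (h B hu), fun h B hu => by_contra fun hB => h B hB hu⟩
  rw [this]
  exact isClosed_biInter fun B _ => ultrafilter_isClosed_basic _

lemma exists_large_ultrafilter : ∃ u : Ultrafilter ℕ, ∀ B ∈ u, Large B := by
  let F : Filter ℕ :=
    { sets := {S | ¬ Large Sᶜ}
      univ_sets := fun h => h.infinite (by simp)
      sets_of_superset := fun hx hxy h => hx (h.mono (compl_subset_compl.2 hxy))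
      inter_sets := fun {x y} hx hy h => by
        rw [compl_inter] at h
        exact h.union.elim hx hy }
  have : F.NeBot := by
    rw [← forall_mem_nonempty_iff_neBot]
    intro s hs
    rw [nonempty_iff_ne_empty]
    rintro rfl
    exact hs (by simpa using large_univ)
  refine ⟨Ultrafilter.of F, fun B hB => by_contra fun hn => ?_⟩
  have h1 : Bᶜ ∈ F := by
    change ¬ Large Bᶜᶜ
    rwa [compl_compl]
  exact Ultrafilter.compl_mem_iff_notMem.1 (Ultrafilter.of_le F h1) hB

attribute [local instance] Ultrafilter.add Ultrafilter.addSemigroup in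
lemma exists_large_IP_ultrafilter : ∃ u : Ultrafilter ℕ, ∀ B ∈ u, Large B ∧ IP B := by
  obtain ⟨p, hp, hpp⟩ := exists_idempotent_in_compact_add_subsemigroup
    (M := Ultrafilter ℕ) Ultrafilter.continuous_add_left {u | ∀ B ∈ u, Large B}
    exists_large_ultrafilter (isClosed_all _).isCompact (by
      intro x _ y hy B hB
      have h1 : ∀ᶠ m in (x : Filter ℕ), ∀ᶠ m' in (y : Filter ℕ), m + m' ∈ B :=
        (Ultrafilter.eventually_add x y (· ∈ B)).1 hB
      obtain ⟨m, hm⟩ := h1.exists
      exact (hy _ hm).of_add)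
  refine ⟨p, fun B hB => ⟨hp B hB, ?_⟩⟩
  obtain ⟨a, ha⟩ := Hindman.exists_FS_of_large p hpp B hB
  exact ⟨fun i => a.get i, fun s hs => ha (Hindman.FS.finsetSum a s hs)⟩

attribute [local instance] Ultrafilter.mul Ultrafilter.semigroup in
theorem exists_good_ultrafilter : ∃ u : Ultrafilter ℕ, (∀ B ∈ u, Large B ∧ IP B) ∧
    ∀ B ∈ u, {x | {n | x * n ∈ B} ∈ u} ∈ u := by
  obtain ⟨p, hp, hpp⟩ := exists_idempotent_in_compact_subsemigroup
    (M := Ultrafilter ℕ) Ultrafilter.continuous_mul_left {u | ∀ B ∈ u, Large B ∧ IP B}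
    exists_large_IP_ultrafilter (isClosed_all _).isCompact (by
      intro x hx y hy B hB
      have h1 : ∀ᶠ m in (x : Filter ℕ), ∀ᶠ m' in (y : Filter ℕ), m * m' ∈ B :=
        (Ultrafilter.eventually_mul x y (· ∈ B)).1 hB
      obtain ⟨m, hm, hm0⟩ := (hx _ h1).1.infinite.exists_gt 0
      obtain ⟨h2, a, ha⟩ := hy _ hm
      refine ⟨h2.of_mul hm0, fun i => m * a i, fun s hs => ?_⟩
      rw [← Finset.mul_sum]
      exact ha s hs)
  refine ⟨p, hp, fun B hB => ?_⟩
  rw [← hpp] at hB
  exact (Ultrafilter.eventually_mul p p (· ∈ B)).1 hB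

end Pool.Agent.H298Z.PR
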