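import Mathlib
import Pool.Agent.H298Z.PRLarge

/-! The pattern `x, y, z, w, 2x + 2y + 3z + xy + 2zw` is partition regular over the positive
integers but not over the nonzero polynomials with zero constant term. -/

set_option autoImplicit false

namespace Pool.Agent.H298Z.PR

open Filter Set

theorem regular_nat (r : ℕ) (c : ℕ → Fin r) (N : ℕ) :
    ∃ x y z w : ℕ, N < x ∧ x < z ∧ z < w ∧ w < y ∧ c y = c x ∧ c z = c x ∧ c w = c x ∧
      c (2 * x + 2 * y + 3 * z + x * y + 2 * z * w) = c x := by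
  obtain ⟨u, hu, hidem⟩ := exists_good_ultrafilter
  have hcof : ∀ n : ℕ, {m | n < m} ∈ u := by
    intro n
    rw [← Ultrafilter.compl_notMem_iff]
    intro h
    refine (hu _ h).1.infinite ((Set.finite_le_nat n).subset ?_)
    intro m hm
    simpa using hm
  obtain ⟨i, hi⟩ : ∃ i, {n | c (n - 2) = i} ∈ u := by
    have h1 : (⋃ i ∈ (univ : Set (Fin r)), {n | c (n - 2) = i}) ∈ u := by
      have : (⋃ i ∈ (univ : Set (Fin r)), {n | c (n - 2) = i}) = univ := by
        ext n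
        simp
      rw [this]
      exact univ_mem
    obtain ⟨i, -, hi⟩ := (Ultrafilter.finite_biUnion_mem_iff finite_univ).1 h1
    exact ⟨i, hi⟩
  set A := {n | c (n - 2) = i} with hA
  obtain ⟨X, hXA, hX1, hXN⟩ : ∃ X, X ∈ A ∧ {n | X * n ∈ A} ∈ u ∧ N + 2 < X := by
    obtain ⟨X, hX⟩ := Ultrafilter.nonempty_of_mem
      (inter_mem hi (inter_mem (hidem A hi) (hcof (N + 2))))
    exact ⟨X, hX.1, hX.2.1, hX.2.2⟩
  set B := A ∩ {n | X * n ∈ A} with hB
  have hBu : B ∈ u := inter_mem hi hX1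
  obtain ⟨Z, hZ, hl1⟩ := (hu B hBu).1.recur_IP (hu _ (inter_mem hBu (hcof 1))).2 1
  obtain ⟨W, hW, hl2⟩ := hl1.recur_IP (hu _ (inter_mem hBu (hcof Z))).2 (2 * (X * Z - 2))
  obtain ⟨n, hn, hnW⟩ := hl2.infinite.exists_gt (X * W)
  obtain ⟨⟨-, hY⟩, hY', -⟩ := hn
  have hZ1 : 1 < Z := hZ.2
  have hZW : Z < W := hW.2
  have h1 : X < X * Z := by nlinarith
  have h2 : X * Z < X * W := by nlinarith
  obtain ⟨x, rfl⟩ : ∃ x, X = x + 2 := ⟨X - 2, by omega⟩
  obtain ⟨z, hz⟩ : ∃ z, (x + 2) * Z = z + 2 := ⟨(x + 2) * Z - 2, by omega⟩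
  obtain ⟨w, hw⟩ : ∃ w, (x + 2) * W = w + 2 := ⟨(x + 2) * W - 2, by omega⟩
  obtain ⟨y, hy⟩ : ∃ y, n + 1 * Z = y + 2 := ⟨n + 1 * Z - 2, by omega⟩
  have cx : c x = i := by simpa [hA] using hXA
  have cy : c y = i := by
    have := hY.1
    rw [hy] at this
    simpa [hA] using this
  have cz : c z = i := by
    have : (x + 2) * Z ∈ A := hZ.1.2
    rw [hz] at this
    simpa [hA] using this
  have cw : c w = i := by
    have : (x + 2) * W ∈ A := hW.1.2
    rw [hw] at this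
    simpa [hA] using this
  have cv : c (2 * x + 2 * y + 3 * z + x * y + 2 * z * w) = i := by
    have h3 : (x + 2) * (n + 2 * ((x + 2) * Z - 2) * W) ∈ A := hY'.2
    have h4 : (x + 2) * (n + 2 * ((x + 2) * Z - 2) * W) =
        2 * x + 2 * y + 3 * z + x * y + 2 * z * w + 2 := by
      rw [hz, Nat.add_sub_cancel]
      have h5 : (x + 2) * (n + 2 * z * W) = (x + 2) * n + 2 * z * ((x + 2) * W) := by ring
      have h6 : (x + 2) * n + (x + 2) * Z = (x + 2) * (y + 2) := by rw [← hy]; ring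
      rw [h5, hw]
      rw [hz] at h6
      nlinarith
    rw [h4] at h3
    simpa [hA] using h3
  exact ⟨x, y, z, w, by omega, by omega, by omega, by omega, cy.trans cx.symm, cz.trans cx.symm,
    cw.trans cx.symm, cv.trans cx.symm⟩

/-- last nonzero digit in base eleven -/
def dig (n : ℕ) : ℕ := if h : n ≠ 0 ∧ n % 11 = 0 then dig (n / 11) else n % 11
decreasing_by omega

lemma dig_mul {n : ℕ} (hn : n ≠ 0) : dig (11 * n) = dig n := by
  rw [dig, dif_pos ⟨by omega, by omega⟩, Nat.mul_div_cancel_left _ (by norm_num)]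

lemma dig_of_ne {n : ℕ} (hn : n % 11 ≠ 0) : dig n = n % 11 := by
  rw [dig, dif_neg fun h => hn h.2]

lemma dig_lt (n : ℕ) : dig n < 11 := by
  induction n using Nat.strong_induction_on with
  | _ n ih =>
    rw [dig]
    split_ifs with h
    · exact ih _ (by omega)
    · omega

lemma no_mono (x : ℕ) : ∀ y z e f : ℕ, x ≠ 0 → y ≠ 0 → z ≠ 0 → dig y = dig x → dig z = dig x →
    dig (2 * x + 2 * y + 3 * z + 11 * (x * e + z * f)) ≠ dig x := by
  induction x using Nat.strong_induction_on with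
  | _ x ih =>
    intro y z e f hx hy hz h1 h2
    by_cases h : x % 11 = 0 ∧ y % 11 = 0 ∧ z % 11 = 0
    · obtain ⟨x', rfl⟩ : ∃ x', x = 11 * x' := ⟨x / 11, by omega⟩
      obtain ⟨y', rfl⟩ : ∃ y', y = 11 * y' := ⟨y / 11, by omega⟩
      obtain ⟨z', rfl⟩ : ∃ z', z = 11 * z' := ⟨z / 11, by omega⟩
      have hx' : x' ≠ 0 := by omega
      have hy' : y' ≠ 0 := by omega
      have hz' : z' ≠ 0 := by omega
      rw [dig_mul hx'] at h1 h2 ⊢
      rw [dig_mul hy'] at h1
      rw [dig_mul hz'] at h2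
      have : 2 * (11 * x') + 2 * (11 * y') + 3 * (11 * z') + 11 * (11 * x' * e + 11 * z' * f) =
          11 * (2 * x' + 2 * y' + 3 * z' + 11 * (x' * e + z' * f)) := by ring
      rw [this, dig_mul (by omega)]
      exact ih x' (by omega) y' z' e f hx' hy' hz' h1 h2
    · generalize x * e + z * f = t
      generalize hd : dig x = d at h1 h2
      have ax : x % 11 = 0 ∨ (x % 11 ≠ 0 ∧ x % 11 = d) := by
        by_cases h' : x % 11 = 0
        · exact Or.inl h'
        · exact Or.inr ⟨h', (dig_of_ne h').symm.trans hd⟩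
      have ay : y % 11 = 0 ∨ (y % 11 ≠ 0 ∧ y % 11 = d) := by
        by_cases h' : y % 11 = 0
        · exact Or.inl h'
        · exact Or.inr ⟨h', (dig_of_ne h').symm.trans h1⟩
      have az : z % 11 = 0 ∨ (z % 11 ≠ 0 ∧ z % 11 = d) := by
        by_cases h' : z % 11 = 0
        · exact Or.inl h'
        · exact Or.inr ⟨h', (dig_of_ne h').symm.trans h2⟩
      have hv : (2 * x + 2 * y + 3 * z + 11 * t) % 11 ≠ 0 ∧
          (2 * x + 2 * y + 3 * z + 11 * t) % 11 ≠ d := by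
        rcases ax with ax | ax <;> rcases ay with ay | ay <;> rcases az with az | az <;> omega
      rw [dig_of_ne hv.1]
      exact hv.2

lemma eval_good {p : Polynomial ℕ} (h0 : p ≠ 0) (h1 : p.coeff 0 = 0) :
    ∃ k, k ≠ 0 ∧ p.eval 11 = 11 * k := by
  obtain ⟨q, rfl⟩ := Polynomial.X_dvd_iff.2 h1
  refine ⟨q.eval 11, ?_, by simp⟩
  have hq : q ≠ 0 := fun h => h0 (by simp [h])
  intro h
  rw [Polynomial.eval_eq_sum_range, Finset.sum_eq_zero_iff] at h
  have := h q.natDegree (by simp)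
  simp [hq] at this

theorem not_regular_poly : ∃ (r : ℕ) (c : Polynomial ℕ → Fin r), ∀ x y z w : Polynomial ℕ,
    x ≠ 0 → x.coeff 0 = 0 → y ≠ 0 → y.coeff 0 = 0 → z ≠ 0 → z.coeff 0 = 0 →
    w ≠ 0 → w.coeff 0 = 0 →
    ¬ (c y = c x ∧ c z = c x ∧ c w = c x ∧
      c (2 * x + 2 * y + 3 * z + x * y + 2 * z * w) = c x) := by
  refine ⟨11, fun p => ⟨dig (p.eval 11), dig_lt _⟩, ?_⟩
  intro x y z w hx hx0 hy hy0 hz hz0 hw hw0
  obtain ⟨a, ha, ea⟩ := eval_good hx hx0
  obtain ⟨b, hb, eb⟩ := eval_good hy hy0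
  obtain ⟨d, hd, ed⟩ := eval_good hz hz0
  obtain ⟨e, he, ee⟩ := eval_good hw hw0
  rintro ⟨h1, h2, -, h3⟩
  simp only [Fin.mk.injEq] at h1 h2 h3
  refine no_mono (x.eval 11) (y.eval 11) (z.eval 11) b (2 * e) (by omega) (by omega) (by omega)
    h1 h2 ?_
  rw [← h3]
  congr 1
  simp only [Polynomial.eval_add, Polynomial.eval_mul, Polynomial.eval_ofNat, eb, ee]
  ring

end Pool.Agent.H298Z.PR
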