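import Mathlib

/-! A Hausdorff, topologically periodic, countably pracompact, left `ω`-precompact abelian
paratopological group with discontinuous inversion. -/

set_option autoImplicit false

namespace Pool.Agent.H298Z.Para

open Filter Topology Set Nat

/-- `(n + 1)! r` is an integer -/
def good (n : ℕ) (r : ℚ) : Prop := ∃ z : ℤ, (z : ℚ) = ((n + 1)! : ℕ) * r

lemma good_exists (r : ℚ) : ∃ n, good n r := by
  obtain ⟨c, hc⟩ : r.den ∣ (r.den + 1)! := Nat.dvd_factorial r.den_pos (Nat.le_succ _)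
  refine ⟨r.den, c * r.num, ?_⟩
  rw [hc]
  push_cast
  rw [← Rat.den_mul_eq_num]
  ring

lemma good.succ {n : ℕ} {r : ℚ} (h : good n r) : good (n + 1) r := by
  obtain ⟨z, hz⟩ := h
  refine ⟨(n + 1 + 1 : ℕ) * z, ?_⟩
  rw [Nat.factorial_succ (n + 1)]
  push_cast
  rw [hz]
  ring

lemma good.mono {n m : ℕ} {r : ℚ} (h : good n r) (hnm : n ≤ m) : good m r := by
  induction hnm with
  | refl => exact h
  | step _ ih => exact ih.succ

lemma good.add {n : ℕ} {r s : ℚ} (h : good n r) (h' : good n s) : good n (r + s) := by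
  obtain ⟨z, hz⟩ := h
  obtain ⟨w, hw⟩ := h'
  exact ⟨z + w, by push_cast; rw [hz, hw]; ring⟩

lemma good.neg {n : ℕ} {r : ℚ} (h : good n r) : good n (-r) := by
  obtain ⟨z, hz⟩ := h
  exact ⟨-z, by push_cast; rw [hz]; ring⟩

open Classical in
/-- the level of a rational number -/
noncomputable def lev (r : ℚ) : ℕ := Nat.find (good_exists r)

lemma good_lev (r : ℚ) : good (lev r) r := by
  classical
  exact Nat.find_spec (good_exists r)

lemma lev_le {n : ℕ} {r : ℚ} (h : good n r) : lev r ≤ n := by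
  classical
  exact Nat.find_min' (good_exists r) h

/-- the asymmetric norm -/
noncomputable def p (r : ℚ) : ℝ :=
  ((⌊(((lev r + 1)! : ℕ) : ℚ) * r⌋ % ((lev r : ℤ) + 1) : ℤ) : ℝ) / ((lev r : ℝ) + 1)

lemma p_eq {a : ℕ} {r : ℚ} {z : ℤ} (ha : lev r = a) (hz : (z : ℚ) = ((a + 1)! : ℕ) * r) :
    p r = ((z % ((a : ℤ) + 1) : ℤ) : ℝ) / ((a : ℝ) + 1) := by
  unfold p
  rw [ha, ← hz, Int.floor_intCast]

lemma p_nonneg (r : ℚ) : 0 ≤ p r := by
  unfold p
  refine div_nonneg ?_ (by positivity)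
  exact_mod_cast Int.emod_nonneg _ (by positivity)

lemma p_le_one (r : ℚ) : p r ≤ 1 := by
  unfold p
  rw [div_le_one (by positivity)]
  exact_mod_cast (Int.emod_lt_of_pos _ (by positivity)).le

lemma p_int (z : ℤ) : p z = 0 := by
  have h : good 0 (z : ℚ) := ⟨z, by simp⟩
  rw [p_eq (Nat.le_zero.1 (lev_le h)) (z := z) (by simp)]
  simp

lemma good_iff_dvd {m : ℕ} {r : ℚ} {z : ℤ} (hz : (z : ℚ) = ((m + 1 + 1)! : ℕ) * r) :
    good m r ↔ (((m + 1 : ℕ) : ℤ) + 1) ∣ z := by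
  rw [Nat.factorial_succ (m + 1)] at hz
  constructor
  · rintro ⟨w, hw⟩
    refine ⟨w, ?_⟩
    have : (z : ℚ) = ((((m + 1 : ℕ) : ℤ) + 1) * w : ℤ) := by
      push_cast at hz ⊢
      rw [hz, hw]
      ring
    exact_mod_cast this
  · rintro ⟨w, rfl⟩
    refine ⟨w, ?_⟩
    push_cast at hz
    have h0 : ((m : ℚ) + 1 + 1) ≠ 0 := by positivity
    apply mul_left_cancel₀ h0
    rw [hz]
    ring

lemma p_top {m : ℕ} {r s : ℚ} {z : ℤ} (hz : (z : ℚ) = ((m + 1 + 1)! : ℕ) * r)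
    (hr : ¬ good m r) (hs : good m s) :
    p (r + s) = ((z % (((m + 1 : ℕ) : ℤ) + 1) : ℤ) : ℝ) / (((m + 1 : ℕ) : ℝ) + 1) := by
  obtain ⟨w, hw⟩ := hs
  have h1 : ((z + (((m + 1 : ℕ) : ℤ) + 1) * w : ℤ) : ℚ) = ((m + 1 + 1)! : ℕ) * (r + s) := by
    rw [mul_add, ← hz, Nat.factorial_succ (m + 1)]
    push_cast
    rw [hw]
    ring
  have h2 : lev (r + s) = m + 1 := by
    apply le_antisymm (lev_le ⟨_, h1⟩)
    by_contra h
    have h3 : good m (r + s) := (good_lev _).mono (by omega)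
    have h4 := h3.add (good.neg ⟨w, hw⟩)
    exact hr (by simpa using h4)
  rw [p_eq h2 h1, Int.add_mul_emod_self_left]

lemma p_add_of_lt {r s : ℚ} (h : lev s < lev r) : p (r + s) = p r := by
  obtain ⟨m, hm⟩ : ∃ m, lev r = m + 1 := ⟨lev r - 1, by omega⟩
  obtain ⟨z, hz⟩ := good_lev r
  rw [hm] at hz
  have hr : ¬ good m r := fun h' => by
    have := lev_le h'
    omega
  rw [p_top hz hr ((good_lev s).mono (by omega)), p_eq hm hz]

lemma p_add (r s : ℚ) : p (r + s) ≤ p r + p s := by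
  rcases lt_trichotomy (lev s) (lev r) with h | h | h
  · rw [p_add_of_lt h]
    linarith [p_nonneg s]
  · obtain ⟨z, hz⟩ := good_lev r
    obtain ⟨w, hw⟩ := good_lev s
    rw [h] at hw
    have hzw : ((z + w : ℤ) : ℚ) = ((lev r + 1)! : ℕ) * (r + s) := by
      push_cast
      rw [hz, hw]
      ring
    have hk : (0 : ℤ) < (lev r : ℤ) + 1 := by positivity
    have a1 := Int.emod_nonneg z hk.ne'
    have a2 := Int.emod_nonneg w hk.ne'
    rw [p_eq rfl hz, p_eq h hw, ← add_div]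
    rcases (lev_le ⟨_, hzw⟩).eq_or_lt with h2 | h2
    · rw [p_eq h2 hzw]
      gcongr
      have : (z + w) % ((lev r : ℤ) + 1) ≤ z % ((lev r : ℤ) + 1) + w % ((lev r : ℤ) + 1) := by
        rw [Int.add_emod]
        have b1 := Int.emod_add_mul_ediv (z % ((lev r : ℤ) + 1) + w % ((lev r : ℤ) + 1))
          ((lev r : ℤ) + 1)
        have b2 : 0 ≤ (z % ((lev r : ℤ) + 1) + w % ((lev r : ℤ) + 1)) / ((lev r : ℤ) + 1) :=
          Int.ediv_nonneg (by omega) hk.le
        nlinarith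
      exact_mod_cast this
    · obtain ⟨m, hm⟩ : ∃ m, lev r = m + 1 := ⟨lev r - 1, by omega⟩
      rw [hm] at hz hw hzw a1 a2 hk ⊢
      have b1 : (((m + 1 : ℕ) : ℤ) + 1) ∣ z + w :=
        (good_iff_dvd hzw).1 ((good_lev _).mono (by omega))
      have b2 : ¬ (((m + 1 : ℕ) : ℤ) + 1) ∣ z := fun h' => by
        have := lev_le ((good_iff_dvd hz).2 h')
        omega
      have b3 : z % (((m + 1 : ℕ) : ℤ) + 1) ≠ 0 := fun h' => b2 (Int.dvd_of_emod_eq_zero h')
      have b4 : (((m + 1 : ℕ) : ℤ) + 1) ∣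
          z % (((m + 1 : ℕ) : ℤ) + 1) + w % (((m + 1 : ℕ) : ℤ) + 1) := by
        apply Int.dvd_of_emod_eq_zero
        rw [← Int.add_emod]
        exact Int.emod_eq_zero_of_dvd b1
      have b5 := Int.le_of_dvd (by omega) b4
      refine (p_le_one _).trans ?_
      rw [le_div_iff₀ (by positivity), one_mul]
      exact_mod_cast b5
  · rw [add_comm, p_add_of_lt h]
    linarith [p_nonneg r]

lemma not_good_unit (m : ℕ) (c : ℤ) (hc : c = 1 ∨ c = -1) :
    ¬ good m ((c : ℚ) / ((m + 1 + 1)! : ℕ)) := by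
  have h0 : (((m + 1 + 1)! : ℕ) : ℚ) ≠ 0 := by positivity
  rw [good_iff_dvd (z := c) (by field_simp)]
  intro h
  have h1 : (((m + 1 : ℕ) : ℤ) + 1) ∣ 1 := by
    rcases hc with rfl | rfl
    · exact h
    · exact (Int.dvd_neg).1 h
  have := Int.le_of_dvd one_pos h1
  omega

lemma p_unit_add {m : ℕ} {s : ℚ} (hs : lev s ≤ m) :
    p (1 / ((m + 1 + 1)! : ℕ) + s) = 1 / ((m : ℝ) + 2) := by
  have h0 : (((m + 1 + 1)! : ℕ) : ℚ) ≠ 0 := by positivity
  have h := p_top (z := 1) (r := ((1 : ℤ) : ℚ) / ((m + 1 + 1)! : ℕ)) (by field_simp)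
    (not_good_unit m 1 (Or.inl rfl)) ((good_lev s).mono hs)
  rw [Int.emod_eq_of_lt (by omega) (by omega)] at h
  push_cast at h ⊢
  rw [h]
  ring

lemma p_neg_unit (m : ℕ) : 1 / 2 ≤ p (-(1 / ((m + 1 + 1)! : ℕ))) := by
  have h0 : (((m + 1 + 1)! : ℕ) : ℚ) ≠ 0 := by positivity
  have h := p_top (z := -1) (r := ((-1 : ℤ) : ℚ) / ((m + 1 + 1)! : ℕ)) (s := 0) (by field_simp)
    (not_good_unit m (-1) (Or.inr rfl)) ⟨0, by simp⟩
  have h1 : (-1 : ℤ) % (((m + 1 : ℕ) : ℤ) + 1) = m + 1 := by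
    rw [← Int.add_mul_emod_self_left (-1) _ 1, Int.emod_eq_of_lt (by omega) (by omega)]
    push_cast
    ring
  rw [h1] at h
  have h2 : (-(1 / ((m + 1 + 1)! : ℕ)) : ℚ) = ((-1 : ℤ) : ℚ) / ((m + 1 + 1)! : ℕ) + 0 := by
    push_cast
    ring
  rw [h2, h, div_le_div_iff₀ (by positivity) (by positivity)]
  push_cast
  have : (0 : ℝ) ≤ m := by positivity
  linarith

lemma exists_phi : ∃ phi : UnitAddCircle →+ ℚ, ∀ (r : ℚ) (y : UnitAddCircle) (ε : ℝ), 0 < ε →
    ∃ x, ‖x - y‖ < ε ∧ phi x = r := by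
  have h1 : (√2 : ℝ) ∉ Submodule.span ℚ ({1} : Set ℝ) := by
    rw [Submodule.mem_span_singleton]
    rintro ⟨a, ha⟩
    exact irrational_sqrt_two ⟨a, by simpa using ha⟩
  obtain ⟨f, hf, hf0⟩ := Submodule.exists_dual_map_eq_bot_of_notMem h1 inferInstance
  have hf1 : f 1 = 0 := by
    have : f 1 ∈ Submodule.map f (Submodule.span ℚ ({1} : Set ℝ)) :=
      Submodule.mem_map_of_mem (Submodule.mem_span_singleton_self _)
    rw [hf0] at this
    exact this
  refine ⟨QuotientAddGroup.lift (AddSubgroup.zmultiples (1 : ℝ)) f.toAddMonoidHom ?_, ?_⟩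
  · rintro _ ⟨n, rfl⟩
    change f (n • (1 : ℝ)) = 0
    rw [map_zsmul, hf1, smul_zero]
  · intro r y ε hε
    obtain ⟨t, rfl⟩ := QuotientAddGroup.mk_surjective y
    obtain ⟨q, hq⟩ := exists_rat_near (t - (r / f √2) • √2) hε
    refine ⟨((q • (1 : ℝ) + (r / f √2) • √2 : ℝ) : UnitAddCircle), ?_, ?_⟩
    · rw [← QuotientAddGroup.mk_sub]
      refine QuotientAddGroup.norm_mk_le_norm.trans_lt ?_
      rw [Real.norm_eq_abs, abs_sub_comm]
      have e : t - (q • (1 : ℝ) + (r / f √2) • √2) = t - (r / f √2) • √2 - q := by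
        rw [Rat.smul_one_eq_cast]
        ring
      rwa [e]
    · rw [QuotientAddGroup.lift_mk]
      simp only [LinearMap.toAddMonoidHom_coe, map_add, map_smul, hf1, smul_eq_mul]
      field_simp
      simp

/-- the discontinuous homomorphism -/
noncomputable def phi : UnitAddCircle →+ ℚ := exists_phi.choose

lemma phi_spec (r : ℚ) (y : UnitAddCircle) {ε : ℝ} (hε : 0 < ε) : ∃ x, ‖x - y‖ < ε ∧ phi x = r :=
  exists_phi.choose_spec r y ε hε

/-- the asymmetric norm on the circle group -/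
noncomputable def ρ (x : UnitAddCircle) : ℝ := ‖x‖ + p (phi x)

lemma ρ_zero : ρ 0 = 0 := by
  have := p_int 0
  simp only [Int.cast_zero] at this
  simp [ρ, this]

lemma ρ_add (x y : UnitAddCircle) : ρ (x + y) ≤ ρ x + ρ y := by
  have h1 := norm_add_le x y
  have h2 := p_add (phi x) (phi y)
  simp only [ρ, map_add]
  linarith

/-- the underlying group -/
def G : Type := UnitAddCircle

noncomputable instance : AddCommGroup G := inferInstanceAs (AddCommGroup UnitAddCircle)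

/-- the identity map to the circle group -/
def toK (x : G) : UnitAddCircle := x

/-- the identity map from the circle group -/
def ofK (x : UnitAddCircle) : G := x

noncomputable instance : TopologicalSpace G where
  IsOpen U := ∀ x ∈ U, ∃ ε > 0, ∀ y : G, ρ (toK y - toK x) < ε → y ∈ U
  isOpen_univ := fun _ _ => ⟨1, one_pos, fun _ _ => trivial⟩
  isOpen_inter := fun U V hU hV x hx => by
    obtain ⟨ε, hε, h1⟩ := hU x hx.1
    obtain ⟨δ, hδ, h2⟩ := hV x hx.2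
    exact ⟨min ε δ, lt_min hε hδ, fun y hy =>
      ⟨h1 y (hy.trans_le (min_le_left _ _)), h2 y (hy.trans_le (min_le_right _ _))⟩⟩
  isOpen_sUnion := fun S hS x ⟨U, hU, hx⟩ => by
    obtain ⟨ε, hε, h1⟩ := hS U hU x hx
    exact ⟨ε, hε, fun y hy => ⟨U, hU, h1 y hy⟩⟩

lemma mem_nhds_G {x : G} {U : Set G} :
    U ∈ 𝓝 x ↔ ∃ ε > 0, ∀ y : G, ρ (toK y - toK x) < ε → y ∈ U := by
  rw [mem_nhds_iff]
  constructor
  · rintro ⟨V, hVU, hV, hx⟩
    obtain ⟨ε, hε, h⟩ := hV x hx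
    exact ⟨ε, hε, fun y hy => hVU (h y hy)⟩
  · rintro ⟨ε, hε, h⟩
    refine ⟨{y | ρ (toK y - toK x) < ε}, h, ?_, by simpa [ρ_zero] using hε⟩
    intro y hy
    refine ⟨ε - ρ (toK y - toK x), sub_pos.2 hy, fun z hz => ?_⟩
    have := ρ_add (toK z - toK y) (toK y - toK x)
    rw [sub_add_sub_cancel] at this
    change ρ (toK z - toK x) < ε
    linarith

lemma ball_mem (x : G) {ε : ℝ} (hε : 0 < ε) : {y | ρ (toK y - toK x) < ε} ∈ 𝓝 x :=
  mem_nhds_G.2 ⟨ε, hε, fun _ h => h⟩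

lemma continuousAdd_G : ContinuousAdd G := by
  refine ⟨continuous_iff_continuousAt.2 fun a U hU => ?_⟩
  obtain ⟨ε, hε, h⟩ := mem_nhds_G.1 hU
  rw [mem_map, ← Prod.mk.eta (p := a), nhds_prod_eq]
  filter_upwards [prod_mem_prod (ball_mem a.1 (half_pos hε)) (ball_mem a.2 (half_pos hε))]
    with b hb
  apply h
  have h1 : ρ (toK b.1 - toK a.1) < ε / 2 := hb.1
  have h2 : ρ (toK b.2 - toK a.2) < ε / 2 := hb.2
  have h3 := ρ_add (toK b.1 - toK a.1) (toK b.2 - toK a.2)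
  have h4 : toK (b.1 + b.2) - toK (a.1 + a.2) = toK b.1 - toK a.1 + (toK b.2 - toK a.2) := by
    change toK b.1 + toK b.2 - (toK a.1 + toK a.2) = _
    abel
  rw [h4]
  linarith

lemma continuous_toK : Continuous toK := by
  refine continuous_iff_continuousAt.2 fun a => Metric.tendsto_nhds.2 fun ε hε => ?_
  filter_upwards [ball_mem a hε] with b hb
  rw [dist_eq_norm]
  have := p_nonneg (phi (toK b - toK a))
  simp only [ρ] at hb
  linarith

lemma t2_G : T2Space G := T2Space.of_injective_continuous (f := toK) (fun _ _ h => h) continuous_toK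

lemma periodic_G (x : G) (U : Set G) (hU : U ∈ 𝓝 (0 : G)) : ∃ n : ℕ, 1 ≤ n ∧ n • x ∈ U := by
  obtain ⟨ε, hε, h⟩ := mem_nhds_G.1 hU
  obtain ⟨N, hN⟩ := exists_nat_one_div_lt hε
  obtain ⟨j, hj, hj'⟩ := AddCircle.exists_norm_nsmul_le ((phi (toK x)).den • toK x)
    (Nat.succ_pos N)
  refine ⟨j * (phi (toK x)).den, Nat.mul_pos hj.1 (phi (toK x)).den_pos, h _ ?_⟩
  have h1 : toK ((j * (phi (toK x)).den) • x) - toK 0 = j • ((phi (toK x)).den • toK x) := by
    change (j * (phi (toK x)).den) • toK x - 0 = _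
    rw [sub_zero, mul_smul]
  have h2 : phi (j • ((phi (toK x)).den • toK x)) = ((j * (phi (toK x)).num : ℤ) : ℚ) := by
    rw [map_nsmul, map_nsmul, nsmul_eq_mul, nsmul_eq_mul, Rat.den_mul_eq_num]
    push_cast
    rfl
  rw [h1, ρ, h2, p_int, add_zero]
  refine hj'.trans_lt (lt_of_le_of_lt ?_ hN)
  push_cast
  gcongr
  linarith

lemma precompact_G (U : Set G) (hU : U ∈ 𝓝 (0 : G)) :
    ∃ F : Set G, F.Countable ∧ ∀ g : G, ∃ f ∈ F, ∃ u ∈ U, g = f + u := by
  obtain ⟨ε, hε, h⟩ := mem_nhds_G.1 hU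
  choose x hx hx' using fun (a : ℚ × ℕ) =>
    phi_spec a.1 (TopologicalSpace.denseSeq UnitAddCircle a.2) (half_pos hε)
  refine ⟨range fun a => ofK (x a), countable_range _, fun g => ?_⟩
  obtain ⟨n, hn⟩ := (TopologicalSpace.denseRange_denseSeq UnitAddCircle).exists_dist_lt (toK g)
    (half_pos hε)
  refine ⟨_, ⟨(phi (toK g), n), rfl⟩, ofK (toK g - x (phi (toK g), n)), h _ ?_, ?_⟩
  · change ρ (toK g - x (phi (toK g), n) - 0) < ε
    rw [sub_zero, ρ, map_sub, hx', sub_self]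
    have h0 := p_int 0
    simp only [Int.cast_zero] at h0
    have h1 := hx (phi (toK g), n)
    rw [← dist_eq_norm] at h1
    have h2 := dist_triangle_right (toK g) (x (phi (toK g), n))
      (TopologicalSpace.denseSeq UnitAddCircle n)
    rw [h0, ← dist_eq_norm]
    linarith
  · change toK g = x (phi (toK g), n) + (toK g - x (phi (toK g), n))
    abel

lemma exists_seq : ∃ d : ℕ → UnitAddCircle, (∀ m, phi (d m) = 1 / ((m + 1 + 1)! : ℕ)) ∧
    ∀ (y : UnitAddCircle) (ε : ℝ), 0 < ε → ∀ N, ∃ m, N ≤ m ∧ ‖d m - y‖ < ε := by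
  choose d hd hd' using fun m : ℕ => phi_spec (1 / ((m + 1 + 1)! : ℕ))
    (TopologicalSpace.denseSeq UnitAddCircle (Nat.unpair m).1) (Nat.one_div_pos_of_nat (n := m))
  refine ⟨d, hd', fun y ε hε N => ?_⟩
  obtain ⟨n, hn⟩ := (TopologicalSpace.denseRange_denseSeq UnitAddCircle).exists_dist_lt y
    (half_pos hε)
  obtain ⟨M, hM⟩ := exists_nat_one_div_lt (half_pos hε)
  refine ⟨Nat.pair n (max N M), (le_max_left _ _).trans (Nat.right_le_pair _ _), ?_⟩
  have h1 := hd (Nat.pair n (max N M))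
  rw [Nat.unpair_pair, ← dist_eq_norm] at h1
  have h2 : (1 : ℝ) / ((Nat.pair n (max N M) : ℕ) + 1) ≤ 1 / ((M : ℝ) + 1) := by
    gcongr
    exact (le_max_right _ _).trans (Nat.right_le_pair _ _)
  have h3 := dist_triangle_right (d (Nat.pair n (max N M))) y
    (TopologicalSpace.denseSeq UnitAddCircle n)
  rw [← dist_eq_norm]
  linarith

lemma ρ_seq {d : ℕ → UnitAddCircle} (hd : ∀ m, phi (d m) = 1 / ((m + 1 + 1)! : ℕ))
    (y : UnitAddCircle) {ε : ℝ} (hε : 0 < ε) :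
    ∃ N, ∀ m, N ≤ m → ‖d m - y‖ < ε / 2 → ρ (d m - y) < ε := by
  obtain ⟨M, hM⟩ := exists_nat_one_div_lt (half_pos hε)
  refine ⟨max M (lev (-phi y)), fun m hm h => ?_⟩
  rw [ρ, map_sub, hd, sub_eq_add_neg _ (phi y), p_unit_add ((le_max_right _ _).trans hm)]
  have h2 : (1 : ℝ) / ((m : ℝ) + 2) ≤ 1 / ((M : ℝ) + 1) := by
    have : (M : ℝ) ≤ m := by exact_mod_cast (le_max_left _ _).trans hm
    gcongr
    norm_num
  linarith

lemma pracompact_G : ∃ D : Set G, Dense D ∧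
    ∀ B ⊆ D, B.Infinite → ∃ y : G, ∀ U ∈ 𝓝 y, (U ∩ B).Infinite := by
  obtain ⟨d, hd, hd'⟩ := exists_seq
  have hinj : Function.Injective d := by
    intro a b h
    have h1 := hd a
    rw [h, hd b] at h1
    have h2 : (b + 1 + 1)! = (a + 1 + 1)! := by
      have h3 : (((b + 1 + 1)! : ℕ) : ℚ) = ((a + 1 + 1)! : ℕ) := by simpa using h1
      exact_mod_cast h3
    have := (Nat.factorial_inj (by omega)).1 h2
    omega
  refine ⟨range fun m => ofK (d m), fun y => mem_closure_iff_nhds.2 fun U hU => ?_, ?_⟩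
  · obtain ⟨ε, hε, h⟩ := mem_nhds_G.1 hU
    obtain ⟨N, hN⟩ := ρ_seq hd (toK y) hε
    obtain ⟨m, hm, hm'⟩ := hd' (toK y) _ (half_pos hε) N
    exact ⟨ofK (d m), h _ (hN m hm hm'), m, rfl⟩
  · intro B hB hinf
    have hI : {m | ofK (d m) ∈ B}.Infinite := by
      intro hf
      refine hinf ((hf.image fun m => ofK (d m)).subset fun b hb => ?_)
      obtain ⟨m, rfl⟩ := hB hb
      exact ⟨m, hb, rfl⟩
    obtain ⟨k, hk, hkB⟩ := extraction_of_frequently_atTop (Nat.frequently_atTop_iff_infinite.2 hI)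
    obtain ⟨y, ψ, hψ, hy⟩ := CompactSpace.tendsto_subseq (fun i => d (k i))
    refine ⟨ofK y, fun U hU => ?_⟩
    obtain ⟨ε, hε, h⟩ := mem_nhds_G.1 hU
    obtain ⟨N, hN⟩ := ρ_seq hd y hε
    have h1 : ∀ᶠ i in atTop, ofK (d (k (ψ i))) ∈ U ∩ B := by
      filter_upwards [Metric.tendsto_nhds.1 hy _ (half_pos hε), eventually_ge_atTop N] with i hi hi'
      refine ⟨h _ (hN _ (hi'.trans (hk.comp hψ).le_apply) ?_), hkB _⟩
      rwa [← dist_eq_norm]
    have h2 := Nat.frequently_atTop_iff_infinite.1 h1.frequently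
    exact Set.infinite_of_injOn_mapsTo (f := fun i => ofK (d (k (ψ i))))
      ((hinj.comp (hk.comp hψ).injective).injOn) (fun i hi => hi) h2

lemma pseudocompact_G (ι : Type) (V : ι → Set G) (hV : LocallyFinite V)
    (ho : ∀ i, IsOpen (V i) ∧ (V i).Nonempty) : Finite ι := by
  obtain ⟨D, hD, h⟩ := pracompact_G
  choose x hxD hxV using fun i => hD.exists_mem_open (ho i).1 (ho i).2
  by_cases hf : (range x).Finite
  · have h1 : (⋃ y ∈ range x, {i | y ∈ V i}).Finite := hf.biUnion fun y _ => hV.point_finite y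
    refine finite_univ_iff.1 (h1.subset fun i _ => ?_)
    exact mem_biUnion (mem_range_self i) (hxV i)
  · obtain ⟨y, hy⟩ := h (range x) (by rintro _ ⟨i, rfl⟩; exact hxD i) hf
    obtain ⟨U, hU, hfin⟩ := hV y
    refine absurd ((hfin.image x).subset ?_) (hy U hU)
    rintro _ ⟨hU', i, rfl⟩
    exact ⟨i, ⟨x i, hxV i, hU'⟩, rfl⟩

lemma not_continuousNeg_G : ¬ ContinuousNeg G := by
  intro hc
  obtain ⟨d, hd, hd'⟩ := exists_seq
  have h1 : {y : G | ρ (toK y - toK 0) < 1 / 2} ∈ 𝓝 (-0 : G) := by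
    rw [neg_zero]
    exact ball_mem 0 (by norm_num)
  obtain ⟨ε, hε, h⟩ := mem_nhds_G.1 (continuous_neg.continuousAt.preimage_mem_nhds h1)
  obtain ⟨N, hN⟩ := ρ_seq hd 0 hε
  obtain ⟨m, hm, hm'⟩ := hd' 0 _ (half_pos hε) N
  have h2 : ρ (-d m - 0) < 1 / 2 := h (ofK (d m)) (hN m hm hm')
  rw [sub_zero, ρ, map_neg, hd] at h2
  have h3 := p_neg_unit m
  have h4 := norm_nonneg (-d m)
  linarith

end Pool.Agent.H298Z.Para
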